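import Pool.Agent.Lib.MP_f11a48_ag.SH.Spec
import Pool.Agent.Lib.MP_f11a48_ag.SH.TH.Ser

/-!
# MP_f11a48_ag, PROJECT S0, part TRF: the forms are analytic
-/

set_option autoImplicit false

open Matrix

namespace Pool.Agent.Lib.MPf11a48.SH

section Mat

variable {E : Type} [NormedAddCommGroup E] [NormedSpace ℂ E] {ι : Type} [Fintype ι] [DecidableEq ι]

theorem det_an {M : E → Matrix ι ι ℂ} {z : E} (h : ∀ i j, AnalyticAt ℂ (fun y => M y i j) z) :
    AnalyticAt ℂ (fun y => (M y).det) z := by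
  simp only [Matrix.det_apply']
  refine Finset.analyticAt_fun_sum _ fun σ _ => ?_
  refine analyticAt_const.mul ?_
  exact Finset.analyticAt_fun_prod _ fun i _ => h _ _

theorem inv_an {M : E → Matrix ι ι ℂ} {z : E} (h : ∀ i j, AnalyticAt ℂ (fun y => M y i j) z)
    (hz : IsUnit (M z).det) (i j : ι) : AnalyticAt ℂ (fun y => (M y)⁻¹ i j) z := by
  have h1 : (fun y => (M y)⁻¹ i j) = fun y => (M y).det⁻¹ *
      ((M y).updateRow j (Pi.single i 1)).det := by
    funext y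
    rw [Matrix.inv_def, Matrix.smul_apply, Matrix.adjugate_apply, Ring.inverse_eq_inv', smul_eq_mul]
  rw [h1]
  refine (((det_an h).inv hz.ne_zero)).mul (det_an fun a b => ?_)
  by_cases ha : a = j
  · subst ha
    simp only [Matrix.updateRow_self]
    exact analyticAt_const
  · simp only [Matrix.updateRow_ne ha]
    exact h a b

end Mat

namespace Fam

variable {K : Type} [Field K] [NumberField K] {T : Type} [Fintype T] [DecidableEq T] {n : ℕ}
  (F : Fam K T n)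

theorem per_an (l : K × K) (i : CI T n) (z : Fin n → ℂ) :
    AnalyticAt ℂ (fun y : Fin n → ℂ => F.per y l i) z := by
  have hp : ∀ d : Fin n, AnalyticAt ℂ (fun y : Fin n → ℂ => y d) z := fun d =>
    (ContinuousLinearMap.proj d : (Fin n → ℂ) →L[ℂ] ℂ).analyticAt z
  obtain ⟨v, j⟩ := i
  rcases v with t | d
  · exact analyticAt_const
  · show AnalyticAt ℂ (fun y : Fin n → ℂ => if j = 0 then F.emb l (Sum.inr d, 0) -
      y d * F.emb l (Sum.inr d, 1) else
        F.sg (Sum.inr d) F.c * (starRingEnd ℂ) (F.emb l (Sum.inr d, 1)) -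
          y d * (starRingEnd ℂ) (F.emb l (Sum.inr d, 0))) z
    by_cases hj : j = 0
    · simp only [hj, if_true]
      exact analyticAt_const.sub ((hp d).mul analyticAt_const)
    · simp only [hj, if_false]
      exact analyticAt_const.sub ((hp d).mul analyticAt_const)

theorem Ome_an (z : Fin n → ℂ) (i j : CI T n) : AnalyticAt ℂ (fun y => F.Ome y i j) z :=
  F.per_an _ i z

theorem Omf_an (z : Fin n → ℂ) (i j : CI T n) : AnalyticAt ℂ (fun y => F.Omf y i j) z :=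
  F.per_an _ i z

/-- `tau` as a function -/
noncomputable def tf (z : Fin n → ℂ) : CI T n → CI T n → ℂ := fun i j => F.tau z i j

theorem tf_an {z : Fin n → ℂ} (hz : IsUnit (F.Ome z).det) : AnalyticAt ℂ F.tf z := by
  rw [analyticAt_pi_iff]
  intro i
  rw [analyticAt_pi_iff]
  intro j
  show AnalyticAt ℂ (fun y => ∑ k, (F.Ome y)⁻¹ i k * F.Omf y k j) z
  exact Finset.analyticAt_fun_sum _ fun k _ =>
    (inv_an (F.Ome_an z) hz i k).mul (F.Omf_an z k j)

theorem inv_mulVec_an {z : Fin n → ℂ} (hz : IsUnit (F.Ome z).det) (w : CI T n → ℂ) :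
    AnalyticAt ℂ (fun y => (F.Ome y)⁻¹ *ᵥ w) z := by
  rw [analyticAt_pi_iff]
  intro i
  show AnalyticAt ℂ (fun y => ∑ k, (F.Ome y)⁻¹ i k * w k) z
  exact Finset.analyticAt_fun_sum _ fun k _ => (inv_an (F.Ome_an z) hz i k).mul analyticAt_const

theorem Kl_an {z : Fin n → ℂ} (hz : IsUnit (F.Ome z).det)
    (hH : F.tf z ∈ TH.HH (CI T n)) (u : K × K) : AnalyticAt ℂ (fun y => F.Kl y u) z := by
  have h1 : AnalyticAt ℂ (fun y : Fin n → ℂ => (F.tf y,
      (TH.rc (F.pc u) : CI T n → ℂ), (TH.rc (F.qc u) : CI T n → ℂ))) z :=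
    (F.tf_an hz).prod (analyticAt_const.prod analyticAt_const)
  have h2 := TH.analyticAt_Ks (F.tf z,
      (TH.rc (F.pc u) : CI T n → ℂ), (TH.rc (F.qc u) : CI T n → ℂ)) hH
  have h3 : AnalyticAt ℂ (fun y : Fin n → ℂ => TH.Ks (F.tf y)
      (TH.rc (F.pc u)) (TH.rc (F.qc u))) z :=
    by
      have h := AnalyticAt.comp_of_eq h2 h1 (by rfl)
      exact h
  have h4 := (analyticAt_const (𝕜 := ℂ) (x := z)
    (v := Complex.exp (-(Real.pi * Complex.I * ∑ i, (F.pc u i : ℂ) * (F.qc u i : ℂ))))).mul h3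
  exact h4

theorem KD_an {z : Fin n → ℂ} (hz : IsUnit (F.Ome z).det)
    (hH : F.tf z ∈ TH.HH (CI T n)) (u : K × K) (w : CI T n → ℂ) :
    AnalyticAt ℂ (fun y => F.KD y u w) z := by
  have h1 : AnalyticAt ℂ (fun y : Fin n → ℂ => ((F.tf y,
      (TH.rc (F.pc u) : CI T n → ℂ), (TH.rc (F.qc u) : CI T n → ℂ)),
      (((0 : CI T n → CI T n → ℂ), (F.Ome y)⁻¹ *ᵥ w) : TH.PP (CI T n)))) z :=
    ((F.tf_an hz).prod (analyticAt_const.prod analyticAt_const)).prod
      (analyticAt_const.prod (F.inv_mulVec_an hz w))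
  have h2 := TH.analyticAt_KG ((F.tf z,
      (TH.rc (F.pc u) : CI T n → ℂ), (TH.rc (F.qc u) : CI T n → ℂ)),
      (((0 : CI T n → CI T n → ℂ), (F.Ome z)⁻¹ *ᵥ w) : TH.PP (CI T n))) hH
  have h3 : AnalyticAt ℂ (fun y : Fin n → ℂ => TH.KG (F.tf y)
      (TH.rc (F.pc u)) (TH.rc (F.qc u)) (0, (F.Ome y)⁻¹ *ᵥ w)) z :=
    by
      have h := AnalyticAt.comp_of_eq h2 h1 (by rfl)
      exact h
  have h4 := (analyticAt_const (𝕜 := ℂ) (x := z)
    (v := Complex.exp (-(Real.pi * Complex.I * ∑ i, (F.pc u i : ℂ) * (F.qc u i : ℂ))))).mul h3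
  exact h4

end Fam

/-- Part ANA. -/
theorem specANA (h : SpecSIE) : SpecANA := by
  intro K _ _ T _ _ n F u v
  refine ⟨fun z hz => ?_, fun z hz => ?_⟩
  · obtain ⟨h1, -, h3⟩ := h K T n F z hz
    exact F.Kl_an h1 h3 u
  · obtain ⟨h1, -, h3⟩ := h K T n F z hz
    exact ((F.KD_an h1 h3 u _).mul (F.KD_an h1 h3 v _)).sub
      ((F.KD_an h1 h3 u _).mul (F.KD_an h1 h3 v _))

end Pool.Agent.Lib.MPf11a48.SH
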