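import Pool.Agent.Lib.MP_f11a48_ag.SH.TRF.Trf

/-!
# MP_f11a48_ag, project S0, part TRF: the forms of the family under the arithmetic group, assembly
-/

set_option autoImplicit false

open Matrix

namespace Pool.Agent.Lib.MPf11a48.SH.TRF

open TH

variable {K : Type} [Field K] [NumberField K] {T : Type} [Fintype T] [DecidableEq T] {n : ℕ}
  (F : Fam K T n)

/-- module NRM -/
def NRM : Prop :=
  ∀ (ι : Type) [Fintype ι], ∃ N : (ι → ι → ℂ) → ℝ, ContinuousOn N (HH ι) ∧ ∀ τ ∈ HH ι,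
    0 < N τ ∧ (∀ p q : ι → ℝ, ‖TH.Kl τ p q‖ ≤ N τ) ∧ ∃ p q : ι → ℝ, N τ = ‖TH.Kl τ p q‖

theorem per_cont (l : K × K) (i : CI T n) : Continuous fun z => F.per z l i := by
  rcases i with ⟨t | d, j⟩
  · exact continuous_const
  · simp only [Fam.per, Fam.perR]
    split_ifs
    · exact continuous_const.sub ((continuous_apply d).mul continuous_const)
    · exact continuous_const.sub ((continuous_apply d).mul continuous_const)

theorem Ome_cont : Continuous fun z => F.Ome z :=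
  continuous_matrix fun i _ => per_cont F _ i

theorem Omf_cont : Continuous fun z => F.Omf z :=
  continuous_matrix fun i _ => per_cont F _ i

theorem tau_cont : ContinuousOn (fun z => F.tau z) F.X := by
  have h1 : ContinuousOn (fun z => (F.Ome z)⁻¹) F.X := by
    simp only [Matrix.inv_def, Ring.inverse_eq_inv']
    have h3 : ContinuousOn (fun z => ((F.Ome z).det)⁻¹) F.X :=
      ContinuousOn.inv₀ (Ome_cont F).matrix_det.continuousOn fun z hz => (rr hz).det_ne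
    exact h3.smul (Ome_cont F).matrix_adjugate.continuousOn
  have h2 : ContinuousOn (fun z => (F.Ome z)⁻¹ * F.Omf z) F.X := by
    rw [continuousOn_iff_continuous_domRestrict] at h1 ⊢
    exact h1.matrix_mul ((Omf_cont F).comp continuous_subtype_val)
  exact h2

variable {F}

theorem iv_ER_nondeg (u : (CI T n → ℝ) × (CI T n → ℝ)) (h : ∀ u', ER u u' = 0) : u = 0 := by
  classical
  refine Prod.ext ?_ ?_
  · funext i
    have := h (0, Pi.single i 1)
    simpa [ER, Pi.single_apply] using this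
  · funext i
    have := h (Pi.single i 1, 0)
    simpa [ER, Pi.single_apply] using this

theorem SR_surj {M m : ℕ} {g : F.Gam M} (hg : Cong m g) {z : Fin n → ℂ} (hz : z ∈ F.X)
    (hz' : g.act z ∈ F.X) : Function.Surjective (SR g) := by
  have h := tr hg hz hz'
  refine LinearMap.injective_iff_surjective.1 ?_
  rw [injective_iff_map_eq_zero]
  intro u hu
  refine iv_ER_nondeg u fun u' => ?_
  rw [← h.sym, hu]
  simp [ER]

/-- the real coordinates of a rational point -/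
noncomputable def uc (u : K × K) : (CI T n → ℝ) × (CI T n → ℝ) := (F.pc u, F.qc u)

theorem xr_uc (u : K × K) (k : CI T n ⊕ CI T n) : xr (uc (F := F) u) k = ((F.b.repr u k : ℚ) : ℝ) := by
  rcases k with k | k <;> rfl

theorem lam_int {m : ℕ} {u : K × K} (hu : (m : ℚ) • u ∈ F.Lam) :
    ∃ y : CI T n ⊕ CI T n → ℤ, ∀ k, (m : ℝ) * xr (uc (F := F) u) k = y k := by
  choose y hy using hu
  refine ⟨y, fun k => ?_⟩
  rw [xr_uc]
  have := hy k
  rw [map_smul, Finsupp.smul_apply, smul_eq_mul] at this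
  exact_mod_cast this

theorem Kl_uc (z : Fin n → ℂ) (u : K × K) :
    F.Kl z u = TH.Kl (F.tau z) (uc (F := F) u).1 (uc (F := F) u).2 := rfl

theorem KD_uc (z : Fin n → ℂ) (u : K × K) (w : CI T n → ℂ) :
    F.KD z u w = TH.KD (F.tau z) (uc (F := F) u).1 (uc (F := F) u).2 ((F.Ome z)⁻¹ *ᵥ w) := rfl

theorem Kl_shift {m : ℕ} {u : K × K} (hu : (m : ℚ) • u ∈ F.Lam) {M : ℕ} {g : F.Gam M}
    (hg : Cong m g) (τ : CI T n → CI T n → ℂ) :
    TH.Kl τ (SR g (uc (F := F) u)).1 (SR g (uc (F := F) u)).2 =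
      TH.Kl τ (uc (F := F) u).1 (uc (F := F) u).2 ∧
    ∀ v, TH.KD τ (SR g (uc (F := F) u)).1 (SR g (uc (F := F) u)).2 v =
      TH.KD τ (uc (F := F) u).1 (uc (F := F) u).2 v := by
  obtain ⟨y, hy⟩ := lam_int hu
  obtain ⟨a, b, h⟩ := SR_int hg _ y hy
  have h1 := qf_one _ y hy a b
  rw [h]
  constructor
  · have h2 := TH.Kl_add τ (uc (F := F) u).1 (uc (F := F) u).2 (fun i => 2 * (m : ℤ) * a i)
      (fun i => 2 * (m : ℤ) * b i)
    rw [h1, one_mul] at h2
    exact h2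
  · intro v
    have h2 := TH.KD_add τ (uc (F := F) u).1 (uc (F := F) u).2 v (fun i => 2 * (m : ℤ) * a i)
      (fun i => 2 * (m : ℤ) * b i)
    rw [h1, one_mul] at h2
    exact h2

theorem AM_e0 {M : ℕ} (g : F.Gam M) (z : Fin n → ℂ) (t : T) :
    AM g z (Pi.single (Sum.inl t, 0) 1) = F.sg (Sum.inl t) g.a • Pi.single (Sum.inl t, 0) 1 +
      F.sg (Sum.inl t) g.b • Pi.single (Sum.inl t, 1) 1 := by
  funext i
  rcases i with ⟨t' | d, j⟩
  · by_cases ht : t' = t
    · subst ht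
      fin_cases j <;> simp [AM]
    · have h1 : ∀ j j' : Fin 2, ((Sum.inl t', j) : CI T n) ≠ (Sum.inl t, j') := by
        intro j j' h
        exact ht (Sum.inl.inj (Prod.mk.inj h).1)
      simp [AM, h1]
  · simp [AM]

theorem AM_e1 {M : ℕ} (g : F.Gam M) (z : Fin n → ℂ) (t : T) :
    AM g z (Pi.single (Sum.inl t, 1) 1) =
      (F.sg (Sum.inl t) F.c * (starRingEnd ℂ) (F.sg (Sum.inl t) g.b)) •
        Pi.single (Sum.inl t, 0) 1 +
      (starRingEnd ℂ) (F.sg (Sum.inl t) g.a) • Pi.single (Sum.inl t, 1) 1 := by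
  funext i
  rcases i with ⟨t' | d, j⟩
  · by_cases ht : t' = t
    · subst ht
      fin_cases j <;> simp [AM]
    · have h1 : ∀ j j' : Fin 2, ((Sum.inl t', j) : CI T n) ≠ (Sum.inl t, j') := by
        intro j j' h
        exact ht (Sum.inl.inj (Prod.mk.inj h).1)
      simp [AM, h1]
  · simp [AM]

theorem KD_add' {z : Fin n → ℂ} (hz : z ∈ F.X) (u : K × K) (w w' : CI T n → ℂ) :
    F.KD z u (w + w') = F.KD z u w + F.KD z u w' := by
  rw [KD_uc, KD_uc, KD_uc, Matrix.mulVec_add]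
  exact TH.KD_add_dir (specSIE K T n F z hz).2.2 _ _ _ _

theorem KD_smul' {z : Fin n → ℂ} (hz : z ∈ F.X) (u : K × K) (c : ℂ) (w : CI T n → ℂ) :
    F.KD z u (c • w) = c * F.KD z u w := by
  rw [KD_uc, KD_uc, Matrix.mulVec_smul]
  exact TH.KD_smul_dir (specSIE K T n F z hz).2.2 _ _ _ _

theorem trf_main (hN : NRM) (F : Fam K T n) : ∃ Nrm : (Fin n → ℂ) → ℝ, ContinuousOn Nrm F.X ∧
    (∀ z ∈ F.X, 0 < Nrm z) ∧
      ∀ m : ℕ, 0 < m → ∃ M : ℕ, 0 < M ∧ ∀ (g : F.Gam M), ∀ z ∈ F.X, g.act z ∈ F.X →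
        ∃ c : ℂ, ‖c‖ * Nrm z = Nrm (g.act z) ∧
          (∀ u : K × K, (m : ℚ) • u ∈ F.Lam → F.Kl (g.act z) u = c * F.Kl z u) ∧
          ∀ u v : K × K, (m : ℚ) • u ∈ F.Lam → (m : ℚ) • v ∈ F.Lam →
            F.HD (g.act z) u v = c ^ 2 * F.HD z u v := by
  obtain ⟨N, hNc, hN⟩ := hN (CI T n)
  have hS := specSIE K T n F
  refine ⟨fun z => N (F.tau z), ?_, fun z hz => (hN _ (hS z hz).2.2).1, fun m hm => ?_⟩
  · exact hNc.comp (tau_cont F) fun z hz => (hS z hz).2.2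
  obtain ⟨M, hM, hcong⟩ := exists_cong F m hm
  refine ⟨M, hM, fun g z hz hz' => ?_⟩
  have hg := hcong g
  have hU : UNI (CI T n) := fun τ hτ _ G hG h1 h2 => TH.th_unique hτ G hG (fun w b => h1 b w)
    (fun w a => h2 a w)
  have hsym : SYM (F.tau z) := fun i j => by
    have := congrFun (congrFun (hS z hz).2.1 j) i
    exact this
  obtain ⟨c, h1, h2⟩ := transf hU hsym (hS z hz).2.2 (hS _ hz').2.2 (tr hg hz hz')
  have hKD : ∀ u : K × K, (m : ℚ) • u ∈ F.Lam → ∀ w, F.KD (g.act z) u (AM g z w) =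
      c * F.KD z u w := by
    intro u hu w
    rw [KD_uc, KD_uc, ← AT_apply g hz, ← (Kl_shift hu hg (F.tau (g.act z))).2]
    exact h2 _ _
  refine ⟨c, ?_, fun u hu => ?_, fun u v hu hv => ?_⟩
  · obtain ⟨-, h3, p, q, h4⟩ := hN _ (hS z hz).2.2
    obtain ⟨-, h5, p', q', h6⟩ := hN _ (hS _ hz').2.2
    have h8 : ‖c‖ * N (F.tau z) ≤ N (F.tau (g.act z)) := by
      have h9 : ‖c‖ * N (F.tau z) = ‖c * TH.Kl (F.tau z) p q‖ := by
        rw [norm_mul]
        exact congrArg _ h4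
      refine h9.le.trans ?_
      have h10 := h1 (p, q)
      refine (congrArg norm h10).symm.le.trans ?_
      exact h5 _ _
    have h11 : N (F.tau (g.act z)) ≤ ‖c‖ * N (F.tau z) := by
      obtain ⟨w, hw⟩ := SR_surj hg hz hz' (p', q')
      have h7 := h1 w
      rw [hw] at h7
      refine h6.le.trans ((congrArg norm h7).le.trans ?_)
      rw [norm_mul]
      exact mul_le_mul_of_nonneg_left (h3 _ _) (norm_nonneg _)
    exact le_antisymm h8 h11
  · rw [Kl_uc, Kl_uc, ← (Kl_shift hu hg (F.tau (g.act z))).1]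
    exact h1 _
  · have e0 := hKD u hu (Pi.single (Sum.inl F.t0, 0) 1)
    have e1 := hKD u hu (Pi.single (Sum.inl F.t0, 1) 1)
    have f0 := hKD v hv (Pi.single (Sum.inl F.t0, 0) 1)
    have f1 := hKD v hv (Pi.single (Sum.inl F.t0, 1) 1)
    rw [AM_e0, KD_add' hz', KD_smul' hz', KD_smul' hz'] at e0 f0
    rw [AM_e1, KD_add' hz', KD_smul' hz', KD_smul' hz'] at e1 f1
    rw [Fam.HD, Fam.HD]
    have h8 := g_eq g (Sum.inl F.t0)
    set K0 := F.KD (g.act z) u (Pi.single (Sum.inl F.t0, 0) 1)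
    set K1 := F.KD (g.act z) u (Pi.single (Sum.inl F.t0, 1) 1)
    set L0 := F.KD (g.act z) v (Pi.single (Sum.inl F.t0, 0) 1)
    set L1 := F.KD (g.act z) v (Pi.single (Sum.inl F.t0, 1) 1)
    set k0 := F.KD z u (Pi.single (Sum.inl F.t0, 0) 1)
    set k1 := F.KD z u (Pi.single (Sum.inl F.t0, 1) 1)
    set l0 := F.KD z v (Pi.single (Sum.inl F.t0, 0) 1)
    set l1 := F.KD z v (Pi.single (Sum.inl F.t0, 1) 1)
    have h9 : c ^ 2 * (k0 * l1 - k1 * l0) = (c * k0) * (c * l1) - (c * k1) * (c * l0) := by ring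
    rw [h9, ← e0, ← e1, ← f0, ← f1]
    linear_combination (-(K0 * L1 - K1 * L0)) * h8

end Pool.Agent.Lib.MPf11a48.SH.TRF

namespace Pool.Agent.Lib.MPf11a48.SH

theorem specTRF_of (hN : TRF.NRM) : SpecTRF := by
  intro K _ _ T _ _ n F
  exact TRF.trf_main hN F

end Pool.Agent.Lib.MPf11a48.SH
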