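import Pool.Agent.Lib.MP_f11a48_ag.SH.TRF.Main

/-!
# MP_f11a48_ag, project S0, part TRF: the sup norm of the theta function over the real torus
-/

set_option autoImplicit false

open Filter Topology Complex

open scoped Real

namespace Pool.Agent.Lib.MPf11a48.SH.TRF

open TH

variable {ι : Type} [Fintype ι]

theorem Kl_cont : ContinuousOn (fun R : (ι → ι → ℂ) × ((ι → ℝ) × (ι → ℝ)) =>
    TH.Kl R.1 R.2.1 R.2.2) (HH ι ×ˢ Set.univ) := by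
  rintro ⟨τ, p, q⟩ ⟨hτ, -⟩
  have h1 : ContinuousAt (fun R : (ι → ι → ℂ) × (ι → ℂ) × (ι → ℂ) => Ks R.1 R.2.1 R.2.2)
      (τ, rc p, rc q) := (analyticAt_Ks (τ, rc p, rc q) hτ).continuousAt
  have h2 : Continuous (fun R : (ι → ι → ℂ) × ((ι → ℝ) × (ι → ℝ)) =>
      ((R.1, rc R.2.1, rc R.2.2) : (ι → ι → ℂ) × (ι → ℂ) × (ι → ℂ))) := by
    unfold rc
    fun_prop
  have h3 : ContinuousAt (fun R : (ι → ι → ℂ) × ((ι → ℝ) × (ι → ℝ)) =>
      Ks R.1 (rc R.2.1) (rc R.2.2)) (τ, p, q) :=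
    ContinuousAt.comp (g := fun R : (ι → ι → ℂ) × (ι → ℂ) × (ι → ℂ) => Ks R.1 R.2.1 R.2.2)
      (f := fun R : (ι → ι → ℂ) × ((ι → ℝ) × (ι → ℝ)) =>
        ((R.1, rc R.2.1, rc R.2.2) : (ι → ι → ℂ) × (ι → ℂ) × (ι → ℂ))) h1 h2.continuousAt
  have h4 : Continuous (fun R : (ι → ι → ℂ) × ((ι → ℝ) × (ι → ℝ)) =>
      cexp (-(π * I * ∑ i, (R.2.1 i : ℂ) * (R.2.2 i : ℂ)))) := by
    fun_prop
  exact (h4.continuousAt.mul h3).continuousWithinAt

theorem Kl_zero (τ : ι → ι → ℂ) (x : ι → ℝ) : TH.Kl τ 0 x = th τ (rc x) := by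
  rw [TH.Kl, show (rc (0 : ι → ℝ) : ι → ℂ) = 0 from by funext i; simp [rc], Ks_zero]
  simp

theorem nrm : NRM := by
  intro ι _
  set C : Set ((ι → ℝ) × (ι → ℝ)) := Set.Icc 0 1 with hC
  have hCc : IsCompact C := isCompact_Icc
  have hCn : C.Nonempty := ⟨0, by simp [hC]⟩
  have hk : ∀ τ ∈ HH ι, Continuous fun u : (ι → ℝ) × (ι → ℝ) => ‖TH.Kl τ u.1 u.2‖ := by
    intro τ hτ
    have h1 : Continuous fun u : (ι → ℝ) × (ι → ℝ) => ((τ, u) : (ι → ι → ℂ) × _) := by fun_prop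
    exact (Kl_cont.comp_continuous h1 fun u => ⟨hτ, Set.mem_univ _⟩).norm
  refine ⟨fun τ => sSup ((fun u : (ι → ℝ) × (ι → ℝ) => ‖TH.Kl τ u.1 u.2‖) '' C), ?_, ?_⟩
  · rw [continuousOn_iff_continuous_domRestrict]
    have h2 : Continuous (Function.uncurry fun (τ : HH ι) (u : (ι → ℝ) × (ι → ℝ)) =>
        ‖TH.Kl τ.1 u.1 u.2‖) := by
      have h1 : Continuous fun R : (HH ι) × ((ι → ℝ) × (ι → ℝ)) =>
          ((R.1.1, R.2) : (ι → ι → ℂ) × _) := by fun_prop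
      exact (Kl_cont.comp_continuous h1 fun R => ⟨R.1.2, Set.mem_univ _⟩).norm
    exact hCc.continuous_sSup h2
  · intro τ hτ
    have hb : ∀ p q : ι → ℝ, ‖TH.Kl τ p q‖ ≤
        sSup ((fun u : (ι → ℝ) × (ι → ℝ) => ‖TH.Kl τ u.1 u.2‖) '' C) := by
      intro p q
      have h1 := norm_Kl_add τ (fun i => Int.fract (p i)) (fun i => Int.fract (q i))
        (fun i => ⌊p i⌋) (fun i => ⌊q i⌋)
      simp only [Int.fract_add_floor] at h1
      rw [h1]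
      refine le_csSup (hCc.image (hk τ hτ)).bddAbove
        ⟨(fun i => Int.fract (p i), fun i => Int.fract (q i)), ?_, rfl⟩
      refine ⟨⟨fun i => Int.fract_nonneg _, fun i => Int.fract_nonneg _⟩,
        ⟨fun i => (Int.fract_lt_one _).le, fun i => (Int.fract_lt_one _).le⟩⟩
    obtain ⟨u, hu, hu'⟩ := hCc.exists_sSup_image_eq hCn (hk τ hτ).continuousOn
    refine ⟨?_, hb, u.1, u.2, hu'⟩
    obtain ⟨x, hx⟩ := th_ne_real hτ
    refine lt_of_lt_of_le (norm_pos_iff.2 ?_) (hb 0 x)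
    rwa [Kl_zero]

end Pool.Agent.Lib.MPf11a48.SH.TRF

namespace Pool.Agent.Lib.MPf11a48.SH

theorem specTRF : SpecTRF := specTRF_of TRF.nrm

end Pool.Agent.Lib.MPf11a48.SH
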