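import Mathlib

/-!
# MP_f11a48_ag, project S0, part TRF: the Siegel point of a pair of period matrices

`Om_e`, `Om_f` are complex matrices; the real torus point `(p, q)` is `Om_f p + Om_e q`.  If the
symplectic form `q p' - p q'` vanishes on the kernel of the complex linear extension and is positive
there, then `tau = Om_e^-1 Om_f` is symmetric with positive definite imaginary part.
-/

set_option autoImplicit false

open Matrix

namespace Pool.Agent.Lib.MPf11a48.SH.TRF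

variable {I : Type} [Fintype I]

/-- the symplectic form on `C^I x C^I`: `E((c, d), (c', d')) = d c' - c d'` -/
noncomputable def EC (c d c' d' : I → ℂ) : ℂ := d ⬝ᵥ c' - c ⬝ᵥ d'

/-- complex symmetric with positive definite imaginary part -/
def Sieg (τ : Matrix I I ℂ) : Prop := τ.IsSymm ∧ (τ.map Complex.im).PosDef

/-- the Riemann relations for a pair of period matrices -/
structure RR (Ωe Ωf : Matrix I I ℂ) : Prop where
  iso : ∀ c d c' d' : I → ℂ, Ωf *ᵥ c + Ωe *ᵥ d = 0 → Ωf *ᵥ c' + Ωe *ᵥ d' = 0 → EC c d c' d' = 0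
  pos : ∀ c d : I → ℂ, Ωf *ᵥ c + Ωe *ᵥ d = 0 → (c ≠ 0 ∨ d ≠ 0) →
    0 < (Complex.I * EC c d (star c) (star d)).re

variable [DecidableEq I] {Ωe Ωf : Matrix I I ℂ}

theorem RR.det_ne (h : RR Ωe Ωf) : Ωe.det ≠ 0 := by
  intro h0
  obtain ⟨d, hd, hd0⟩ := Matrix.exists_mulVec_eq_zero_iff.2 h0
  have := h.pos 0 d (by simp [hd0]) (Or.inr hd)
  simp [EC] at this

theorem RR.ker (h : RR Ωe Ωf) (c : I → ℂ) : Ωf *ᵥ c + Ωe *ᵥ (-((Ωe⁻¹ * Ωf) *ᵥ c)) = 0 := by
  have hu : IsUnit Ωe.det := isUnit_iff_ne_zero.2 h.det_ne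
  rw [Matrix.mulVec_neg, Matrix.mulVec_mulVec, ← Matrix.mul_assoc, Matrix.mul_nonsing_inv _ hu,
    Matrix.one_mul]
  simp

theorem RR.symm (h : RR Ωe Ωf) : (Ωe⁻¹ * Ωf).IsSymm := by
  ext i j
  have := h.iso _ _ _ _ (h.ker (Pi.single j 1)) (h.ker (Pi.single i 1))
  simp only [EC, Matrix.mulVec_single_one, dotProduct_neg, dotProduct_single,
    single_dotProduct, Pi.neg_apply, Matrix.col_apply, mul_one, one_mul] at this
  rw [Matrix.transpose_apply]
  linear_combination this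

theorem RR.im_pos (h : RR Ωe Ωf) (c : I → ℂ) (hc : c ≠ 0) :
    0 < (star c ⬝ᵥ ((Ωe⁻¹ * Ωf) *ᵥ c)).im := by
  have h1 := h.pos _ _ (h.ker c) (Or.inl hc)
  set w := (Ωe⁻¹ * Ωf) *ᵥ c with hw
  have h2 : EC c (-w) (star c) (star (-w)) = 2 * Complex.I * (-((star c ⬝ᵥ w).im : ℂ)) := by
    have h3 : c ⬝ᵥ star w = star (star c ⬝ᵥ w) := by
      simp [dotProduct]
    have h4 : w ⬝ᵥ star c = star c ⬝ᵥ w := dotProduct_comm _ _
    simp only [EC, neg_dotProduct, star_neg, dotProduct_neg, h4, h3]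
    generalize star c ⬝ᵥ w = s
    apply Complex.ext <;> simp
    ring
  rw [h2] at h1
  have h5 : (Complex.I * (2 * Complex.I * (-((star c ⬝ᵥ w).im : ℂ)))).re =
      2 * (star c ⬝ᵥ w).im := by
    simp [Complex.mul_re, Complex.mul_im]
  rw [h5] at h1
  linarith

theorem RR.sieg (h : RR Ωe Ωf) : Sieg (Ωe⁻¹ * Ωf) := by
  refine ⟨h.symm, ?_⟩
  have hs := h.symm
  refine Matrix.PosDef.of_dotProduct_mulVec_pos ?_ ?_
  · ext i j
    simp only [Matrix.conjTranspose_apply, Matrix.map_apply, star_trivial]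
    rw [← Matrix.transpose_apply (Ωe⁻¹ * Ωf), hs]
  · intro x hx
    have hc : (fun i => (x i : ℂ)) ≠ 0 := by
      intro h0; apply hx; funext i
      have := congrFun h0 i
      simpa using this
    have := h.im_pos _ hc
    have he : star x ⬝ᵥ ((Ωe⁻¹ * Ωf).map Complex.im *ᵥ x) =
        (star (fun i => (x i : ℂ)) ⬝ᵥ ((Ωe⁻¹ * Ωf) *ᵥ fun i => (x i : ℂ))).im := by
      simp only [dotProduct, Matrix.mulVec, Complex.im_sum, Finset.mul_sum]
      refine Finset.sum_congr rfl fun i _ => Finset.sum_congr rfl fun j _ => ?_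
      simp [Complex.mul_im, Complex.mul_re]
    rw [he]
    exact this

end Pool.Agent.Lib.MPf11a48.SH.TRF
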