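import Pool.Agent.Lib.MP_f11a48_ag.SH.Spec
import Pool.Agent.Lib.MP_f11a48_ag.SH.TRF.Siegel

/-!
# MP_f11a48_ag, project S0, part TRF: the period matrices are in the Siegel space
-/

set_option autoImplicit false

open Matrix

namespace Pool.Agent.Lib.MPf11a48.SH.TRF

variable {K : Type} [Field K] [NumberField K] {T : Type} [Fintype T] [DecidableEq T] {n : ℕ}
  (F : Fam K T n)

/-! ## The trace as a sum over the places -/

theorem trace_sum (y : K) : ((Algebra.trace ℚ K y : ℚ) : ℂ) =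
    ∑ v, (F.sg v y + (starRingEnd ℂ) (F.sg v y)) := by
  classical
  have h1 : ((Algebra.trace ℚ K y : ℚ) : ℂ) = ∑ σ : K →ₐ[ℚ] ℂ, σ y := by
    rw [← trace_eq_sum_embeddings ℂ]
    simp
  rw [h1]
  let e : (T ⊕ Fin n) ⊕ (T ⊕ Fin n) → (K →ₐ[ℚ] ℂ) := fun v => RingHom.equivRatAlgHom K ℂ
    (Sum.elim (fun v => F.sg v) (fun v => (starRingEnd ℂ).comp (F.sg v)) v)
  have he : Function.Bijective e := by
    constructor
    · intro v w h
      have h' := (RingHom.equivRatAlgHom K ℂ).injective h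
      rcases v with v | v <;> rcases w with w | w <;>
        simp only [Sum.elim_inl, Sum.elim_inr] at h'
      · rw [F.sg_inj h']
      · exact absurd h' (F.sg_ne v w)
      · exact absurd h'.symm (F.sg_ne w v)
      · congr 1
        apply F.sg_inj
        ext x
        have := RingHom.congr_fun h' x
        simp only [RingHom.comp_apply] at this
        exact (starRingEnd ℂ).injective this
    · intro σ
      obtain ⟨s, rfl⟩ := (RingHom.equivRatAlgHom K ℂ).surjective σ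
      obtain ⟨v, h | h⟩ := F.sg_all s
      · exact ⟨Sum.inl v, by simp [e, h]⟩
      · exact ⟨Sum.inr v, by simp [e, h]⟩
  rw [← he.sum_comp fun σ : K →ₐ[ℚ] ℂ => σ y, Fintype.sum_sum_type, ← Finset.sum_add_distrib]
  rfl

theorem xi_conj (v : T ⊕ Fin n) : (starRingEnd ℂ) (F.sg v F.ξ) = -F.sg v F.ξ := by
  rw [← F.conj, F.ξ_bar, map_neg]

theorem c_conj (v : T ⊕ Fin n) : (starRingEnd ℂ) (F.sg v F.c) = F.sg v F.c := by
  rw [← F.conj, F.c_bar]

theorem c_re (v : T ⊕ Fin n) : F.sg v F.c = ((F.sg v F.c).re : ℂ) :=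
  (Complex.conj_eq_iff_re.1 (c_conj F v)).symm

theorem xi_im (v : T ⊕ Fin n) : F.sg v F.ξ = ((F.sg v F.ξ).im : ℂ) * Complex.I := by
  apply Complex.ext
  · have := congrArg Complex.re (xi_conj F v)
    simp only [Complex.conj_re, Complex.neg_re] at this
    simp
    linarith
  · simp

/-! ## The complex linear extension -/

/-- the basis element, component `j`, at the place `v` -/
noncomputable def bs (v : T ⊕ Fin n) (j : Fin 2) (k : CI T n ⊕ CI T n) : ℂ :=
  F.emb (F.b k) (v, j)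

/-- the complex linear extension of the embedding -/
noncomputable def sC (v : T ⊕ Fin n) (j : Fin 2) (x : CI T n ⊕ CI T n → ℂ) : ℂ :=
  ∑ k, x k * bs F v j k

/-- the complex linear extension of the conjugate of the embedding -/
noncomputable def sB (v : T ⊕ Fin n) (j : Fin 2) (x : CI T n ⊕ CI T n → ℂ) : ℂ :=
  ∑ k, x k * (starRingEnd ℂ) (bs F v j k)

theorem E_basis (k l : CI T n ⊕ CI T n) : ((F.E (F.b k) (F.b l) : ℚ) : ℂ) =
    ∑ v, F.sg v F.ξ * (bs F v 0 k * (starRingEnd ℂ) (bs F v 0 l) -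
      F.sg v F.c * bs F v 1 k * (starRingEnd ℂ) (bs F v 1 l) -
      (starRingEnd ℂ) (bs F v 0 k) * bs F v 0 l +
      F.sg v F.c * (starRingEnd ℂ) (bs F v 1 k) * bs F v 1 l) := by
  rw [Fam.E, EE, trace_sum F]
  refine Finset.sum_congr rfl fun v _ => ?_
  simp only [map_mul, map_sub, F.conj, xi_conj, c_conj, Complex.conj_conj, bs, Fam.emb, if_true,
    one_ne_zero, if_false]
  ring

/-- the complexified form -/
noncomputable def EX (x y : CI T n ⊕ CI T n → ℂ) : ℂ :=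
  ∑ k, ∑ l, x k * y l * ((F.E (F.b k) (F.b l) : ℚ) : ℂ)

theorem EX_eq (x y : CI T n ⊕ CI T n → ℂ) : EX F x y =
    ∑ v, F.sg v F.ξ * (sC F v 0 x * sB F v 0 y - F.sg v F.c * sC F v 1 x * sB F v 1 y -
      sB F v 0 x * sC F v 0 y + F.sg v F.c * sB F v 1 x * sC F v 1 y) := by
  have h : ∀ v, F.sg v F.ξ * (sC F v 0 x * sB F v 0 y - F.sg v F.c * sC F v 1 x * sB F v 1 y -
      sB F v 0 x * sC F v 0 y + F.sg v F.c * sB F v 1 x * sC F v 1 y) =
      ∑ k, ∑ l, x k * y l * (F.sg v F.ξ * (bs F v 0 k * (starRingEnd ℂ) (bs F v 0 l) -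
      F.sg v F.c * bs F v 1 k * (starRingEnd ℂ) (bs F v 1 l) -
      (starRingEnd ℂ) (bs F v 0 k) * bs F v 0 l +
      F.sg v F.c * (starRingEnd ℂ) (bs F v 1 k) * bs F v 1 l)) := by
    intro v
    have e1 : ∀ f g : CI T n ⊕ CI T n → ℂ, (∑ k, x k * f k) * (∑ l, y l * g l) =
        ∑ k, ∑ l, x k * y l * (f k * g l) := by
      intro f g
      rw [Finset.sum_mul_sum]
      exact Finset.sum_congr rfl fun k _ => Finset.sum_congr rfl fun l _ => by ring
    simp only [sC, sB]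
    have e2 : ∀ a b f g h i j m : CI T n ⊕ CI T n → ℂ, ∀ c X : ℂ,
        X * ((∑ k, x k * a k) * (∑ l, y l * b l) - c * (∑ k, x k * f k) * (∑ l, y l * g l) -
          (∑ k, x k * h k) * (∑ l, y l * i l) + c * (∑ k, x k * j k) * (∑ l, y l * m l)) =
        ∑ k, ∑ l, x k * y l * (X * (a k * b l - c * f k * g l - h k * i l + c * j k * m l)) := by
      intro a b f g h i j m c X
      rw [mul_assoc c, mul_assoc c, e1, e1, e1, e1]
      simp only [Finset.mul_sum, ← Finset.sum_sub_distrib, ← Finset.sum_add_distrib]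
      exact Finset.sum_congr rfl fun k _ => Finset.sum_congr rfl fun l _ => by ring
    exact e2 _ _ _ _ _ _ _ _ _ _
  refine Eq.trans ?_ (Finset.sum_congr rfl fun v (_ : v ∈ Finset.univ) => (h v).symm)
  rw [EX, Finset.sum_comm (s := (Finset.univ : Finset (T ⊕ Fin n)))]
  refine Finset.sum_congr rfl fun k _ => ?_
  rw [Finset.sum_comm (s := (Finset.univ : Finset (T ⊕ Fin n)))]
  refine Finset.sum_congr rfl fun l _ => ?_
  rw [E_basis, Finset.mul_sum]

theorem EX_elim (c d c' d' : CI T n → ℂ) :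
    EX F (Sum.elim d c) (Sum.elim d' c') = EC c d c' d' := by
  have hfe : ∀ i j, F.E (F.b (Sum.inr i)) (F.b (Sum.inl j)) = if i = j then -1 else 0 := by
    intro i j
    have h1 : ∀ l m : K × K, F.E l m = -F.E m l := by
      intro l m
      have h2 : ((F.E l m : ℚ) : ℂ) = -((F.E m l : ℚ) : ℂ) := by
        rw [Fam.E, Fam.E, EE, EE, trace_sum F, trace_sum F, ← Finset.sum_neg_distrib]
        refine Finset.sum_congr rfl fun v _ => ?_
        simp only [map_mul, map_sub, F.conj, xi_conj, c_conj, Complex.conj_conj]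
        ring
      exact_mod_cast h2
    rw [h1, Fam.E, F.b_ef]
    by_cases h : i = j
    · simp [h]
    · rw [if_neg h, if_neg fun h' => h h'.symm, neg_zero]
  rw [EX, Fintype.sum_sum_type]
  simp only [Fintype.sum_sum_type, Sum.elim_inl, Sum.elim_inr, hfe]
  simp only [Fam.E, F.b_ee, F.b_ff, F.b_ef]
  simp only [EC, dotProduct, Rat.cast_zero, mul_zero, Finset.sum_const_zero, add_zero, zero_add]
  simp only [apply_ite (Rat.cast : ℚ → ℂ), Rat.cast_one, Rat.cast_zero, Rat.cast_neg, mul_ite,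
    mul_one, mul_zero, mul_neg, Finset.sum_ite_eq, Finset.mem_univ, if_true,
    Finset.sum_neg_distrib]
  ring

/-! ## The period map -/

/-- the complex linear extension of the period map -/
noncomputable def UC (z : Fin n → ℂ) (x : CI T n ⊕ CI T n → ℂ) : CI T n → ℂ := fun i =>
  ∑ k, x k * F.per z (F.b k) i

theorem UC_elim (z : Fin n → ℂ) (c d : CI T n → ℂ) :
    UC F z (Sum.elim d c) = F.Omf z *ᵥ c + F.Ome z *ᵥ d := by
  funext i
  rw [UC, Fintype.sum_sum_type]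
  simp only [Sum.elim_inl, Sum.elim_inr, Pi.add_apply, Matrix.mulVec, dotProduct, Fam.Ome,
    Fam.Omf, Matrix.of_apply]
  rw [add_comm]
  congr 1 <;> exact Finset.sum_congr rfl fun k _ => mul_comm _ _

theorem UC_t (z : Fin n → ℂ) (x : CI T n ⊕ CI T n → ℂ) (t : T) (j : Fin 2) :
    UC F z x (Sum.inl t, j) = sC F (Sum.inl t) j x := rfl

theorem UC_d0 (z : Fin n → ℂ) (x : CI T n ⊕ CI T n → ℂ) (d : Fin n) :
    UC F z x (Sum.inr d, 0) = sC F (Sum.inr d) 0 x - z d * sC F (Sum.inr d) 1 x := by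
  rw [UC, sC, sC, Finset.mul_sum, ← Finset.sum_sub_distrib]
  refine Finset.sum_congr rfl fun k _ => ?_
  simp only [Fam.per, Fam.perR, if_true, bs]
  ring

theorem UC_d1 (z : Fin n → ℂ) (x : CI T n ⊕ CI T n → ℂ) (d : Fin n) :
    UC F z x (Sum.inr d, 1) = F.sg (Sum.inr d) F.c * sB F (Sum.inr d) 1 x -
      z d * sB F (Sum.inr d) 0 x := by
  rw [UC, sB, sB, Finset.mul_sum, Finset.mul_sum, ← Finset.sum_sub_distrib]
  refine Finset.sum_congr rfl fun k _ => ?_
  simp only [Fam.per, Fam.perR, bs]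
  rw [if_neg (by decide)]
  ring

theorem sC_conj (v : T ⊕ Fin n) (j : Fin 2) (x : CI T n ⊕ CI T n → ℂ) :
    sC F v j (star x) = (starRingEnd ℂ) (sB F v j x) := by
  rw [sC, sB, map_sum]
  refine Finset.sum_congr rfl fun k _ => ?_
  simp

theorem sB_conj (v : T ⊕ Fin n) (j : Fin 2) (x : CI T n ⊕ CI T n → ℂ) :
    sB F v j (star x) = (starRingEnd ℂ) (sC F v j x) := by
  rw [sC, sB, map_sum]
  refine Finset.sum_congr rfl fun k _ => ?_
  simp

/-- the contribution of a place to the hermitian form -/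
noncomputable def NV (v : T ⊕ Fin n) (x : CI T n ⊕ CI T n → ℂ) : ℝ :=
  ‖sB F v 0 x‖ ^ 2 - (F.sg v F.c).re * ‖sB F v 1 x‖ ^ 2 - ‖sC F v 0 x‖ ^ 2 +
    (F.sg v F.c).re * ‖sC F v 1 x‖ ^ 2

theorem EX_star (x : CI T n ⊕ CI T n → ℂ) :
    (Complex.I * EX F x (star x)).re = ∑ v, (F.sg v F.ξ).im * NV F v x := by
  have h1 : Complex.I * EX F x (star x) = ((∑ v, (F.sg v F.ξ).im * NV F v x : ℝ) : ℂ) := by
    rw [EX_eq, Finset.mul_sum, Complex.ofReal_sum]
    refine Finset.sum_congr rfl fun v _ => ?_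
    simp only [sC_conj, sB_conj, NV]
    have e1 : ∀ y : ℂ, y * (starRingEnd ℂ) y = ((‖y‖ ^ 2 : ℝ) : ℂ) := by
      intro y; rw [Complex.mul_conj, Complex.normSq_eq_norm_sq]
    have hc := c_re F v
    have hx := xi_im F v
    generalize (F.sg v F.ξ).im = a at hx ⊢
    generalize (F.sg v F.c).re = C at hc ⊢
    rw [hx, hc, mul_assoc (C : ℂ), mul_assoc (C : ℂ), e1, e1, e1, e1]
    push_cast
    linear_combination (-(a : ℂ) * ((‖sB F v 0 x‖ : ℂ) ^ 2 - (C : ℂ) * (‖sB F v 1 x‖ : ℂ) ^ 2 -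
      (‖sC F v 0 x‖ : ℂ) ^ 2 + (C : ℂ) * (‖sC F v 1 x‖ : ℂ) ^ 2)) * Complex.I_mul_I
  rw [h1, Complex.ofReal_re]

variable {F}

theorem ker_iso {z : Fin n → ℂ} {x y : CI T n ⊕ CI T n → ℂ} (hx : UC F z x = 0)
    (hy : UC F z y = 0) : EX F x y = 0 := by
  rw [EX_eq]
  refine Finset.sum_eq_zero fun v _ => ?_
  rcases v with t | d
  · have h1 := congrFun hx (Sum.inl t, 0)
    have h2 := congrFun hx (Sum.inl t, 1)
    have h3 := congrFun hy (Sum.inl t, 0)
    have h4 := congrFun hy (Sum.inl t, 1)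
    rw [UC_t, Pi.zero_apply] at h1 h2 h3 h4
    rw [h1, h2, h3, h4]
    ring
  · have h1 := congrFun hx (Sum.inr d, 0)
    have h2 := congrFun hx (Sum.inr d, 1)
    have h3 := congrFun hy (Sum.inr d, 0)
    have h4 := congrFun hy (Sum.inr d, 1)
    rw [UC_d0, Pi.zero_apply] at h1 h3
    rw [UC_d1, Pi.zero_apply] at h2 h4
    linear_combination (F.sg (Sum.inr d) F.ξ * sB F (Sum.inr d) 0 y) * h1 -
      (F.sg (Sum.inr d) F.ξ * sC F (Sum.inr d) 1 x) * h4 -
      (F.sg (Sum.inr d) F.ξ * sB F (Sum.inr d) 0 x) * h3 +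
      (F.sg (Sum.inr d) F.ξ * sC F (Sum.inr d) 1 y) * h2

theorem NV_nonneg {z : Fin n → ℂ} (hz : z ∈ F.X) {x : CI T n ⊕ CI T n → ℂ} (hx : UC F z x = 0)
    (v : T ⊕ Fin n) : 0 ≤ NV F v x ∧ (NV F v x = 0 → ∀ j, sC F v j x = 0 ∧ sB F v j x = 0) := by
  rcases v with t | d
  · have h1 := congrFun hx (Sum.inl t, 0)
    have h2 := congrFun hx (Sum.inl t, 1)
    rw [UC_t, Pi.zero_apply] at h1 h2
    have h3 := F.c_T t
    rw [NV, h1, h2, norm_zero]
    have h4 : 0 ≤ ‖sB F (Sum.inl t) 0 x‖ ^ 2 := by positivity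
    have h5 : 0 ≤ ‖sB F (Sum.inl t) 1 x‖ ^ 2 := by positivity
    refine ⟨by nlinarith, fun h0 => ?_⟩
    have h6 : ‖sB F (Sum.inl t) 0 x‖ ^ 2 = 0 := by nlinarith
    have h7 : ‖sB F (Sum.inl t) 1 x‖ ^ 2 = 0 := by nlinarith
    intro j
    fin_cases j
    · exact ⟨h1, by simpa using h6⟩
    · exact ⟨h2, by simpa using h7⟩
  · have h1 := congrFun hx (Sum.inr d, 0)
    have h2 := congrFun hx (Sum.inr d, 1)
    rw [UC_d0, Pi.zero_apply, sub_eq_zero] at h1
    rw [UC_d1, Pi.zero_apply, sub_eq_zero] at h2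
    have hc := c_re F (Sum.inr d)
    have hc0 := F.c_D d
    have hzd : ‖z d‖ ^ 2 < (F.sg (Sum.inr d) F.c).re := hz d
    set C := (F.sg (Sum.inr d) F.c).re with hC
    rw [hc] at h2
    have h3 : ‖sC F (Sum.inr d) 0 x‖ ^ 2 = ‖z d‖ ^ 2 * ‖sC F (Sum.inr d) 1 x‖ ^ 2 := by
      rw [h1, norm_mul]; ring
    have h4 : C ^ 2 * ‖sB F (Sum.inr d) 1 x‖ ^ 2 = ‖z d‖ ^ 2 * ‖sB F (Sum.inr d) 0 x‖ ^ 2 := by
      have := congrArg (fun y => ‖y‖ ^ 2) h2
      simp only [norm_mul, Complex.norm_real, Real.norm_eq_abs, mul_pow, sq_abs] at this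
      exact this
    have h5 : 0 ≤ ‖sC F (Sum.inr d) 1 x‖ ^ 2 := by positivity
    have h6 : 0 ≤ ‖sB F (Sum.inr d) 0 x‖ ^ 2 := by positivity
    have h7 : 0 ≤ ‖sB F (Sum.inr d) 1 x‖ ^ 2 := by positivity
    have h8 : C * NV F (Sum.inr d) x = (C - ‖z d‖ ^ 2) * ‖sB F (Sum.inr d) 0 x‖ ^ 2 +
        C * ((C - ‖z d‖ ^ 2) * ‖sC F (Sum.inr d) 1 x‖ ^ 2) := by
      rw [NV, ← hC, h3]
      linear_combination (-1 : ℝ) * h4
    have h9 : 0 < C - ‖z d‖ ^ 2 := by linarith
    have h10 : 0 ≤ (C - ‖z d‖ ^ 2) * ‖sB F (Sum.inr d) 0 x‖ ^ 2 := by positivity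
    have h11 : 0 ≤ C * ((C - ‖z d‖ ^ 2) * ‖sC F (Sum.inr d) 1 x‖ ^ 2) := by positivity
    refine ⟨?_, fun h0 => ?_⟩
    · by_contra hlt
      push Not at hlt
      nlinarith
    · rw [h0, mul_zero] at h8
      have h12 : (C - ‖z d‖ ^ 2) * ‖sB F (Sum.inr d) 0 x‖ ^ 2 = 0 := by linarith
      have h13 : C * ((C - ‖z d‖ ^ 2) * ‖sC F (Sum.inr d) 1 x‖ ^ 2) = 0 := by linarith
      have h14 : sB F (Sum.inr d) 0 x = 0 := by
        have := (mul_eq_zero.1 h12).resolve_left h9.ne'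
        simpa using this
      have h15 : sC F (Sum.inr d) 1 x = 0 := by
        have := (mul_eq_zero.1 ((mul_eq_zero.1 h13).resolve_left hc0.ne')).resolve_left h9.ne'
        simpa using this
      have h16 : sC F (Sum.inr d) 0 x = 0 := by rw [h1, h15, mul_zero]
      have h17 : sB F (Sum.inr d) 1 x = 0 := by
        rw [h14, mul_zero] at h2
        have hC0 : (C : ℂ) ≠ 0 := by exact_mod_cast hc0.ne'
        exact (mul_eq_zero.1 h2).resolve_left hC0
      intro j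
      fin_cases j
      · exact ⟨h16, h14⟩
      · exact ⟨h15, h17⟩

theorem eq_zero_of_sC {c d : CI T n → ℂ}
    (h : ∀ v j, sC F v j (Sum.elim d c) = 0 ∧ sB F v j (Sum.elim d c) = 0) : c = 0 ∧ d = 0 := by
  have h1 : ∀ c' d' : CI T n → ℂ, EC c d c' d' = 0 := by
    intro c' d'
    rw [← EX_elim F, EX_eq]
    refine Finset.sum_eq_zero fun v _ => ?_
    rw [(h v 0).1, (h v 0).2, (h v 1).1, (h v 1).2]
    ring
  constructor
  · funext i
    have := h1 0 (Pi.single i 1)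
    simpa [EC] using this
  · funext i
    have := h1 (Pi.single i 1) 0
    simpa [EC] using this

theorem rr {z : Fin n → ℂ} (hz : z ∈ F.X) : RR (F.Ome z) (F.Omf z) where
  iso c d c' d' h h' := by
    rw [← UC_elim] at h h'
    rw [← EX_elim F]
    exact ker_iso h h'
  pos c d h hne := by
    rw [← UC_elim] at h
    have h1 : Sum.elim (star d) (star c) = star (Sum.elim d c : CI T n ⊕ CI T n → ℂ) := by
      funext k
      rcases k with k | k <;> rfl
    rw [← EX_elim F, h1, EX_star]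
    have h2 : ∀ v ∈ Finset.univ, 0 ≤ (F.sg v F.ξ).im * NV F v (Sum.elim d c) := fun v _ =>
      mul_nonneg (F.ξ_pos v).le (NV_nonneg hz h v).1
    refine lt_of_le_of_ne (Finset.sum_nonneg h2) fun h0 => ?_
    have h3 := (Finset.sum_eq_zero_iff_of_nonneg h2).1 h0.symm
    have h4 : ∀ v j, sC F v j (Sum.elim d c) = 0 ∧ sB F v j (Sum.elim d c) = 0 := by
      intro v
      have := h3 v (Finset.mem_univ v)
      exact (NV_nonneg hz h v).2 ((mul_eq_zero.1 this).resolve_left (F.ξ_pos v).ne')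
    obtain ⟨h5, h6⟩ := eq_zero_of_sC h4
    rcases hne with h7 | h7
    · exact h7 h5
    · exact h7 h6

end Pool.Agent.Lib.MPf11a48.SH.TRF

namespace Pool.Agent.Lib.MPf11a48.SH

theorem specSIE : SpecSIE := by
  intro K _ _ T _ _ n F z hz
  have h := TRF.rr hz
  have h1 := h.sieg
  refine ⟨isUnit_iff_ne_zero.2 h.det_ne, h1.1, ?_⟩
  intro x hx
  have h2 := h1.2.dotProduct_mulVec_pos hx
  have h3 : TH.Q (F.tau z : CI T n → CI T n → ℂ) x =
      star x ⬝ᵥ ((F.tau z).map Complex.im *ᵥ x) := by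
    simp only [TH.Q, dotProduct, Matrix.mulVec, Finset.mul_sum, Matrix.map_apply, star_trivial]
    exact Finset.sum_congr rfl fun i _ => Finset.sum_congr rfl fun j _ => by ring
  rw [h3]
  exact h2

end Pool.Agent.Lib.MPf11a48.SH
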