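import Pool.Agent.Lib.MP_f11a48_ag.SH.TH.Ser

/-!
# MP_f11a48_ag, project S0, part TRF: transformation of the Riemann theta function
-/

set_option autoImplicit false

open Filter Topology Complex

open scoped Real

namespace Pool.Agent.Lib.MPf11a48.SH.TRF

open TH

variable {ι : Type} [Fintype ι]

def SYM (τ : ι → ι → ℂ) : Prop := ∀ i j, τ i j = τ j i

/-- uniqueness of the Riemann theta function -/
def UNI (ι : Type) [Fintype ι] : Prop :=
  ∀ τ : ι → ι → ℂ, τ ∈ HH ι → SYM τ → ∀ G : (ι → ℂ) → ℂ, Differentiable ℂ G →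
    (∀ (b : ι → ℤ) (w : ι → ℂ), G (w + ic b) = G w) →
    (∀ (a : ι → ℤ) (w : ι → ℂ), G (w + mv τ (ic a)) = cexp (-L (ic a) (τ, w)) * G w) →
    ∃ c : ℂ, ∀ w, G w = c * th τ w

/-! ## The point of the real coordinates -/

/-- the point `tau p + q` -/
noncomputable def zz (τ : ι → ι → ℂ) (p q : ι → ℝ) : ι → ℂ := rc q + mv τ (rc p)

/-- the product `p . w` of a real and a complex vector -/
noncomputable def rd (p : ι → ℝ) (w : ι → ℂ) : ℂ := ∑ i, (p i : ℂ) * w i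

theorem rd_add_left (p p' : ι → ℝ) (w : ι → ℂ) : rd (p + p') w = rd p w + rd p' w := by
  simp [rd, add_mul, Finset.sum_add_distrib]

theorem rd_smul_left (c : ℝ) (p : ι → ℝ) (w : ι → ℂ) : rd (c • p) w = c * rd p w := by
  simp only [rd, Pi.smul_apply, smul_eq_mul, Finset.mul_sum, ofReal_mul]
  exact Finset.sum_congr rfl fun i _ => by ring

theorem rd_add_right (p : ι → ℝ) (w w' : ι → ℂ) : rd p (w + w') = rd p w + rd p w' := by
  simp [rd, mul_add, Finset.sum_add_distrib]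

theorem rd_smul_right (p : ι → ℝ) (c : ℂ) (w : ι → ℂ) : rd p (c • w) = c * rd p w := by
  simp only [rd, Pi.smul_apply, smul_eq_mul, Finset.mul_sum]
  exact Finset.sum_congr rfl fun i _ => by ring

theorem zz_apply (τ : ι → ι → ℂ) (p q : ι → ℝ) (i : ι) :
    zz τ p q i = q i + ∑ j, (τ i j + τ j i) / 2 * p j := rfl

theorem zz_add (τ : ι → ι → ℂ) (p q p' q' : ι → ℝ) :
    zz τ (p + p') (q + q') = zz τ p q + zz τ p' q' := by
  funext i
  simp only [zz_apply, Pi.add_apply, ofReal_add, mul_add, Finset.sum_add_distrib]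
  ring

/-- the symplectic form of real coordinates -/
def ER (u u' : (ι → ℝ) × (ι → ℝ)) : ℝ := (∑ i, u.2 i * u'.1 i) - ∑ i, u.1 i * u'.2 i

theorem rd_zz (τ : ι → ι → ℂ) (p q p' q' : ι → ℝ) :
    rd p (zz τ p' q') - rd p' (zz τ p q) = -(ER (p, q) (p', q') : ℂ) := by
  have h1 : ∑ i, (p i : ℂ) * ∑ j, (τ i j + τ j i) / 2 * (p' j : ℂ) =
      ∑ i, (p' i : ℂ) * ∑ j, (τ i j + τ j i) / 2 * (p j : ℂ) := by
    simp only [Finset.mul_sum]
    rw [Finset.sum_comm]
    refine Finset.sum_congr rfl fun i _ => Finset.sum_congr rfl fun j _ => ?_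
    ring
  simp only [rd, zz_apply, mul_add, Finset.sum_add_distrib, h1, ER, ofReal_sub, ofReal_sum,
    ofReal_mul]
  have h2 : ∑ i, (p' i : ℂ) * (q i : ℂ) = ∑ i, (q i : ℂ) * (p' i : ℂ) :=
    Finset.sum_congr rfl fun i _ => mul_comm _ _
  rw [h2]; ring

theorem Q_eq_im (τ : ι → ι → ℂ) (p q : ι → ℝ) : Q τ p = ∑ i, p i * (zz τ p q i).im := by
  have h1 : ∑ i, p i * (zz τ p q i).im = ∑ i, ∑ j, p i * p j * (((τ i j).im + (τ j i).im) / 2) := by
    refine Finset.sum_congr rfl fun i _ => ?_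
    rw [zz_apply, add_im, ofReal_im, zero_add, Complex.im_sum, Finset.mul_sum]
    refine Finset.sum_congr rfl fun j _ => ?_
    have h2 : ((τ i j + τ j i) / 2 * (p j : ℂ)).im = ((τ i j).im + (τ j i).im) / 2 * p j := by
      rw [Complex.im_mul_ofReal]
      congr 1
      rw [show (τ i j + τ j i) / 2 = ((1 / 2 : ℝ) : ℂ) * (τ i j + τ j i) by push_cast; ring,
        Complex.im_ofReal_mul, add_im]
      ring
    rw [h2]; ring
  rw [h1]
  have h3 : ∑ i, ∑ j, p i * p j * (((τ i j).im + (τ j i).im) / 2) =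
      (∑ i, ∑ j, p i * p j * (τ i j).im) / 2 + (∑ i, ∑ j, p i * p j * (τ j i).im) / 2 := by
    rw [Finset.sum_div, Finset.sum_div, ← Finset.sum_add_distrib]
    refine Finset.sum_congr rfl fun i _ => ?_
    rw [Finset.sum_div, Finset.sum_div, ← Finset.sum_add_distrib]
    exact Finset.sum_congr rfl fun j _ => by ring
  rw [h3, Finset.sum_comm (f := fun i j => p i * p j * (τ j i).im)]
  have h4 : ∑ j, ∑ i, p i * p j * (τ j i).im = ∑ i, ∑ j, p i * p j * (τ i j).im :=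
    Finset.sum_congr rfl fun i _ => Finset.sum_congr rfl fun j _ => by ring
  rw [h4, Q]; ring

theorem zz_inj {τ : ι → ι → ℂ} (hτ : τ ∈ HH ι) {p q : ι → ℝ} (h : zz τ p q = 0) :
    p = 0 ∧ q = 0 := by
  have hp : p = 0 := by
    by_contra hp
    have h1 := hτ p hp
    rw [Q_eq_im τ p q, h] at h1
    simp at h1
  refine ⟨hp, ?_⟩
  funext i
  have := congrFun h i
  simpa [zz_apply, hp] using this

/-- `zz` as a real linear map -/
noncomputable def zl (τ : ι → ι → ℂ) : ((ι → ℝ) × (ι → ℝ)) →ₗ[ℝ] (ι → ℂ) where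
  toFun u := zz τ u.1 u.2
  map_add' u v := zz_add τ _ _ _ _
  map_smul' c u := by
    funext i
    simp only [zz_apply, Prod.smul_fst, Prod.smul_snd, Pi.smul_apply, smul_eq_mul, ofReal_mul,
      RingHom.id_apply, real_smul, mul_add, Finset.mul_sum]
    congr 1
    exact Finset.sum_congr rfl fun j _ => by ring

/-- `zz` as a real linear equivalence -/
noncomputable def ze {τ : ι → ι → ℂ} (hτ : τ ∈ HH ι) : ((ι → ℝ) × (ι → ℝ)) ≃ₗ[ℝ] (ι → ℂ) :=
  LinearMap.linearEquivOfInjective (zl τ)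
    (by
      rw [injective_iff_map_eq_zero]
      intro u hu
      exact Prod.ext (zz_inj hτ hu).1 (zz_inj hτ hu).2)
    (by simp [Module.finrank_prod, Module.finrank_pi_fintype, Complex.finrank_real_complex,
      mul_two])

theorem ze_apply {τ : ι → ι → ℂ} (hτ : τ ∈ HH ι) (u : (ι → ℝ) × (ι → ℝ)) :
    ze hτ u = zz τ u.1 u.2 := rfl

theorem zz_symm {τ : ι → ι → ℂ} (hτ : τ ∈ HH ι) (w : ι → ℂ) :
    zz τ ((ze hτ).symm w).1 ((ze hτ).symm w).2 = w := by
  rw [← ze_apply hτ, LinearEquiv.apply_symm_apply]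

/-! ## Values through `th` -/

theorem rd_mv (τ : ι → ι → ℂ) (p : ι → ℝ) :
    rd p (mv τ (rc p)) = ∑ i, ∑ j, (p i : ℂ) * (p j : ℂ) * τ i j := by
  have h1 : rd p (mv τ (rc p)) = (∑ i, ∑ j, (p i : ℂ) * (p j : ℂ) * τ i j) / 2 +
      (∑ i, ∑ j, (p i : ℂ) * (p j : ℂ) * τ j i) / 2 := by
    rw [rd, Finset.sum_div, Finset.sum_div, ← Finset.sum_add_distrib]
    refine Finset.sum_congr rfl fun i _ => ?_
    rw [Finset.sum_div, Finset.sum_div, ← Finset.sum_add_distrib, mv, Finset.mul_sum]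
    refine Finset.sum_congr rfl fun j _ => ?_
    simp only [rc]; ring
  rw [h1, Finset.sum_comm (f := fun i j => (p i : ℂ) * (p j : ℂ) * τ j i)]
  have h4 : ∑ j, ∑ i, (p i : ℂ) * (p j : ℂ) * τ j i = ∑ i, ∑ j, (p i : ℂ) * (p j : ℂ) * τ i j :=
    Finset.sum_congr rfl fun i _ => Finset.sum_congr rfl fun j _ => by ring
  rw [h4]; ring

theorem Kl_zz (τ : ι → ι → ℂ) (p q : ι → ℝ) :
    Kl τ p q = cexp (π * I * rd p (zz τ p q)) * th τ (zz τ p q) := by
  rw [TH.Kl_eq, zz, rd_add_right, rd_mv]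
  congr 2
  rw [rd]
  simp only [rc]
  ring

/-- the derivative of the theta function in `w` -/
noncomputable def dth (τ : ι → ι → ℂ) (z v : ι → ℂ) : ℂ := fderiv ℂ (th τ) z v

theorem hasFDerivAt_th2 {τ : ι → ι → ℂ} (hτ : τ ∈ HH ι) (z : ι → ℂ) :
    HasFDerivAt (th τ) ((∑' m : ι → ℤ, cexp (L (ic m) (τ, z)) • L (ic m)).comp
      (ContinuousLinearMap.inr ℂ (ι → ι → ℂ) (ι → ℂ))) z := by
  have h := hasFDerivAt_th (τ, z) hτ
  have h2 : HasFDerivAt (fun w : ι → ℂ => ((τ, w) : PP ι))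
      (ContinuousLinearMap.inr ℂ (ι → ι → ℂ) (ι → ℂ)) z := hasFDerivAt_prodMk_right τ z
  exact h.comp z h2

theorem differentiable_th {τ : ι → ι → ℂ} (hτ : τ ∈ HH ι) : Differentiable ℂ (th τ) :=
  fun z => (hasFDerivAt_th2 hτ z).differentiableAt

theorem KD_zz {τ : ι → ι → ℂ} (hτ : τ ∈ HH ι) (p q : ι → ℝ) (v : ι → ℂ) :
    KD τ p q v = cexp (π * I * rd p (zz τ p q)) *
      (dth τ (zz τ p q) v + 2 * π * I * rd p v * th τ (zz τ p q)) := by
  have h1 := DK_apply (rc p) ((τ, rc q) : PP ι) hτ (0, v)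
  have h2 : dth τ (zz τ p q) v =
      (∑' m : ι → ℤ, cexp (L (ic m) (τ, zz τ p q)) • L (ic m)) (0, v) := by
    rw [dth, (hasFDerivAt_th2 hτ _).fderiv]
    rfl
  have h3 : L (rc p) ((0, v) : PP ι) = 2 * π * I * rd p v := by
    rw [TH.L_apply]
    simp [rd, rc]
  have h4 : Sh (rc p) ((0, v) : PP ι) = (0, v) := by
    rw [Sh_apply]
    congr 1
    funext i
    simp [mv]
  have h5 : Sh (rc p) ((τ, rc q) : PP ι) = (τ, zz τ p q) := Sh_apply _ _ _
  rw [KD, ← h1, DK, add_apply, smul_apply, ContinuousLinearMap.comp_apply, smul_apply, smul_apply,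
    h4, h5, ← h2, h3]
  have h6 : cexp (-(π * I * ∑ i, (p i : ℂ) * (q i : ℂ))) * cexp (L (rc p) (τ, rc q)) =
      cexp (π * I * rd p (zz τ p q)) := by
    rw [← Complex.exp_add, TH.L_apply, zz, rd_add_right, rd_mv]
    congr 1
    simp only [rd, rc]
    ring
  rw [← h6]
  simp only [smul_eq_mul]
  rw [show rc q + mv τ (rc p) = zz τ p q from rfl]
  ring

end Pool.Agent.Lib.MPf11a48.SH.TRF
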