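import Pool.Agent.Lib.MP_f11a48_ag.SH.TRF.Core

/-!
# MP_f11a48_ag, project S0, part TRF: transformation of the Riemann theta function, main theorem
-/

set_option autoImplicit false

open Filter Topology Complex

open scoped Real

namespace Pool.Agent.Lib.MPf11a48.SH.TRF

open TH

variable {ι : Type} [Fintype ι]

/-- `S` on the real coordinates and `A` on `C^I` transform the torus of `tau` into that of `tau'`,
respecting the symplectic form, integrality and the semicharacter. -/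
structure Tr (τ τ' : ι → ι → ℂ) (S : ((ι → ℝ) × (ι → ℝ)) →ₗ[ℝ] ((ι → ℝ) × (ι → ℝ)))
    (A : (ι → ℂ) →ₗ[ℂ] (ι → ℂ)) : Prop where
  map : ∀ u : (ι → ℝ) × (ι → ℝ), zz τ' (S u).1 (S u).2 = A (zz τ u.1 u.2)
  sym : ∀ u u', ER (S u) (S u') = ER u u'
  int : ∀ a b : ι → ℤ, ∃ a' b' : ι → ℤ, S (fun i => (a i : ℝ), fun i => (b i : ℝ)) =
    (fun i => (a' i : ℝ), fun i => (b' i : ℝ)) ∧ Even ((∑ i, a' i * b' i) - ∑ i, a i * b i)

variable {τ τ' : ι → ι → ℂ} (hτ : τ ∈ HH ι)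
variable {S : ((ι → ℝ) × (ι → ℝ)) →ₗ[ℝ] ((ι → ℝ) × (ι → ℝ))} {A : (ι → ℂ) →ₗ[ℂ] (ι → ℂ)}

/-- `B(w1, w2) = p'(w1) . A w2 - p(w1) . w2` -/
noncomputable def BB (S : ((ι → ℝ) × (ι → ℝ)) →ₗ[ℝ] ((ι → ℝ) × (ι → ℝ)))
    (A : (ι → ℂ) →ₗ[ℂ] (ι → ℂ)) (w₁ w₂ : ι → ℂ) : ℂ :=
  rd (S ((ze hτ).symm w₁)).1 (A w₂) - rd ((ze hτ).symm w₁).1 w₂

theorem ze_symm_zz (u : (ι → ℝ) × (ι → ℝ)) : (ze hτ).symm (zz τ u.1 u.2) = u := by
  rw [← ze_apply hτ, LinearEquiv.symm_apply_apply]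

theorem BB_symm (h : Tr τ τ' S A) (w₁ w₂ : ι → ℂ) : BB hτ S A w₁ w₂ = BB hτ S A w₂ w₁ := by
  obtain ⟨u₁, rfl⟩ := (ze hτ).surjective w₁
  obtain ⟨u₂, rfl⟩ := (ze hτ).surjective w₂
  simp only [BB, ze_apply, ze_symm_zz, ← h.map]
  have h1 := rd_zz τ' (S u₁).1 (S u₁).2 (S u₂).1 (S u₂).2
  have h2 := rd_zz τ u₁.1 u₁.2 u₂.1 u₂.2
  have h3 := h.sym u₁ u₂
  have h4 : (ER ((S u₁).1, (S u₁).2) ((S u₂).1, (S u₂).2) : ℂ) =
      (ER (u₁.1, u₁.2) (u₂.1, u₂.2) : ℂ) := by exact_mod_cast h3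
  rw [h4] at h1
  linear_combination h1 - h2

theorem BB_add (w₁ w₂ w₃ : ι → ℂ) :
    BB hτ S A w₁ (w₂ + w₃) = BB hτ S A w₁ w₂ + BB hτ S A w₁ w₃ := by
  simp only [BB, map_add, rd_add_right]
  ring

theorem BB_smul (c : ℂ) (w₁ w₂ : ι → ℂ) : BB hτ S A w₁ (c • w₂) = c * BB hτ S A w₁ w₂ := by
  simp only [BB, map_smul, rd_smul_right]
  ring

/-- `B` as a bilinear form -/
noncomputable def BL (h : Tr τ τ' S A) : (ι → ℂ) →ₗ[ℂ] (ι → ℂ) →ₗ[ℂ] ℂ :=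
  LinearMap.mk₂ ℂ (BB hτ S A)
    (fun w₁ w₂ w₃ => by
      rw [BB_symm hτ h (w₁ + w₂), BB_add, BB_symm hτ h w₃ w₁, BB_symm hτ h w₃ w₂])
    (fun c w₁ w₂ => by
      rw [BB_symm hτ h (c • w₁), BB_smul, BB_symm hτ h w₂ w₁, smul_eq_mul])
    (fun w₁ w₂ w₃ => BB_add hτ w₁ w₂ w₃)
    (fun c w₁ w₂ => by rw [BB_smul, smul_eq_mul])

theorem BL_apply (h : Tr τ τ' S A) (w₁ w₂ : ι → ℂ) : BL hτ h w₁ w₂ = BB hτ S A w₁ w₂ := rfl

theorem BB_hasFDerivAt (h : Tr τ τ' S A) (w : ι → ℂ) :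
    ∃ D : (ι → ℂ) →L[ℂ] ℂ, HasFDerivAt (fun w => BB hτ S A w w) D w ∧
      ∀ v, D v = 2 * BB hτ S A w v := by
  classical
  set Bj : ι → (ι → ℂ) →L[ℂ] ℂ := fun j =>
    LinearMap.toContinuousLinearMap (BL hτ h (Pi.single j 1)) with hBj
  have h0 : ∀ w v : ι → ℂ, BB hτ S A w v = ∑ j, w j * Bj j v := by
    intro w v
    rw [← BL_apply hτ h]
    conv_lhs => rw [show w = ∑ j, w j • (Pi.single j 1 : ι → ℂ) from by
      funext i
      simp [Finset.sum_apply, Pi.single_apply]]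
    rw [map_sum, LinearMap.sum_apply]
    refine Finset.sum_congr rfl fun j _ => ?_
    rw [map_smul, LinearMap.smul_apply, smul_eq_mul]
    rfl
  refine ⟨∑ j, (w j • Bj j + Bj j w • (ContinuousLinearMap.proj j : (ι → ℂ) →L[ℂ] ℂ)), ?_, ?_⟩
  · have h1 : (fun w => BB hτ S A w w) = fun w => ∑ j, w j * Bj j w := by
      funext w; exact h0 w w
    rw [h1]
    refine HasFDerivAt.fun_sum fun j _ => ?_
    have h2 : HasFDerivAt (fun w : ι → ℂ => w j)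
        (ContinuousLinearMap.proj j : (ι → ℂ) →L[ℂ] ℂ) w :=
      (ContinuousLinearMap.proj j : (ι → ℂ) →L[ℂ] ℂ).hasFDerivAt
    exact h2.mul (Bj j).hasFDerivAt
  · intro v
    rw [two_mul]
    nth_rewrite 2 [BB_symm hτ h]
    rw [h0 w v, h0 v w, _root_.sum_apply, ← Finset.sum_add_distrib]
    refine Finset.sum_congr rfl fun j _ => ?_
    simp only [add_apply, smul_apply, ContinuousLinearMap.proj_apply, smul_eq_mul]
    ring

/-- the comparison function -/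
noncomputable def GG (τ' : ι → ι → ℂ) (S : ((ι → ℝ) × (ι → ℝ)) →ₗ[ℝ] ((ι → ℝ) × (ι → ℝ)))
    (A : (ι → ℂ) →ₗ[ℂ] (ι → ℂ)) (w : ι → ℂ) : ℂ :=
  cexp (π * I * BB hτ S A w w) * th τ' (A w)

theorem GG_hasFDerivAt (hτ' : τ' ∈ HH ι) (h : Tr τ τ' S A) (w : ι → ℂ) :
    ∃ D : (ι → ℂ) →L[ℂ] ℂ, HasFDerivAt (GG hτ τ' S A) D w ∧
      ∀ v, D v = cexp (π * I * BB hτ S A w w) *
        (dth τ' (A w) (A v) + 2 * π * I * BB hτ S A w v * th τ' (A w)) := by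
  obtain ⟨D₁, h1, h1'⟩ := BB_hasFDerivAt hτ h w
  have h2 : HasFDerivAt (fun w => cexp (π * I * BB hτ S A w w))
      (cexp (π * I * BB hτ S A w w) • ((π * I : ℂ) • D₁)) w := (h1.const_mul _).cexp
  have h3 : HasFDerivAt (fun w => th τ' (A w))
      ((fderiv ℂ (th τ') (A w)).comp (LinearMap.toContinuousLinearMap A)) w := by
    have h4 : HasFDerivAt (fun w => A w) (LinearMap.toContinuousLinearMap A) w :=
      (LinearMap.toContinuousLinearMap A).hasFDerivAt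
    exact (differentiable_th hτ' (A w)).hasFDerivAt.comp w h4
  refine ⟨_, h2.mul h3, fun v => ?_⟩
  simp only [add_apply, smul_apply, ContinuousLinearMap.comp_apply, smul_eq_mul, h1',
    LinearMap.coe_toContinuousLinearMap', dth]
  ring

theorem GG_zz (h : Tr τ τ' S A) (u : (ι → ℝ) × (ι → ℝ)) :
    GG hτ τ' S A (zz τ u.1 u.2) = cexp (-(π * I * rd u.1 (zz τ u.1 u.2))) *
      Kl τ' (S u).1 (S u).2 := by
  have h1 := ze_symm_zz hτ u
  rw [Kl_zz, h.map, GG, BB, h1, ← mul_assoc, ← Complex.exp_add]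
  congr 2
  ring

theorem rd_rc (p q : ι → ℝ) : rd p (rc q) = ∑ i, (p i : ℂ) * (q i : ℂ) := rfl

/-- the factor of the quasi-periods, transformed -/
theorem qf_transf (h : Tr τ τ' S A) (p q : ι → ℝ) (a b a' b' : ι → ℤ)
    (h1 : S (fun i => (a i : ℝ), fun i => (b i : ℝ)) = (fun i => (a' i : ℝ), fun i => (b' i : ℝ)))
    (h2 : Even ((∑ i, a' i * b' i) - ∑ i, a i * b i)) :
    qf (S (p, q)).1 (S (p, q)).2 a' b' = qf p q a b := by
  obtain ⟨k, hk⟩ := h2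
  have h3 := h.sym (p, q) (fun i => (a i : ℝ), fun i => (b i : ℝ))
  rw [h1] at h3
  unfold qf
  rw [← Complex.exp_periodic.int_mul k]
  congr 1
  have h4 : (∑ i, (a' i : ℂ) * (b' i : ℂ)) = (∑ i, (a i : ℂ) * (b i : ℂ)) + k + k := by
    have : (∑ i, a' i * b' i) = (∑ i, a i * b i) + k + k := by linarith
    exact_mod_cast this
  have h5 : (∑ i, ((S (p, q)).2 i : ℂ) * (a' i : ℂ)) - ∑ i, ((S (p, q)).1 i : ℂ) * (b' i : ℂ) =
      (∑ i, (q i : ℂ) * (a i : ℂ)) - ∑ i, (p i : ℂ) * (b i : ℂ) := by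
    simp only [ER] at h3
    exact_mod_cast h3
  have h6 : (∑ i, (a' i : ℂ) * ((S (p, q)).2 i : ℂ)) = ∑ i, ((S (p, q)).2 i : ℂ) * (a' i : ℂ) :=
    Finset.sum_congr rfl fun i _ => mul_comm _ _
  have h7 : (∑ i, (a i : ℂ) * (q i : ℂ)) = ∑ i, (q i : ℂ) * (a i : ℂ) :=
    Finset.sum_congr rfl fun i _ => mul_comm _ _
  rw [h4, h6, h7]
  linear_combination (-(π * I : ℂ)) * h5

/-- the integral vector `(a, b)` as a real vector -/
def iv (a b : ι → ℤ) : (ι → ℝ) × (ι → ℝ) := (fun i => (a i : ℝ), fun i => (b i : ℝ))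

theorem Kl_S (h : Tr τ τ' S A) (u : (ι → ℝ) × (ι → ℝ)) (a b : ι → ℤ) :
    Kl τ' (S (u + iv a b)).1 (S (u + iv a b)).2 = qf u.1 u.2 a b * Kl τ' (S u).1 (S u).2 := by
  obtain ⟨a', b', h1, h2⟩ := h.int a b
  rw [← qf_transf h u.1 u.2 a b a' b' h1 h2, map_add, iv, h1]
  exact TH.Kl_add τ' (S u).1 (S u).2 a' b'

theorem KD_S (h : Tr τ τ' S A) (u : (ι → ℝ) × (ι → ℝ)) (a b : ι → ℤ) (v : ι → ℂ) :
    KD τ' (S (u + iv a b)).1 (S (u + iv a b)).2 v = qf u.1 u.2 a b * KD τ' (S u).1 (S u).2 v := by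
  obtain ⟨a', b', h1, h2⟩ := h.int a b
  rw [← qf_transf h u.1 u.2 a b a' b' h1 h2, map_add, iv, h1]
  exact TH.KD_add τ' (S u).1 (S u).2 v a' b'

theorem zz_int (τ : ι → ι → ℂ) (u : (ι → ℝ) × (ι → ℝ)) (b : ι → ℤ) :
    zz τ u.1 u.2 + ic b = zz τ (u + iv 0 b).1 (u + iv 0 b).2 := by
  funext i
  simp only [Pi.add_apply, zz_apply, iv, Prod.fst_add, Prod.snd_add, ic, Pi.zero_apply,
    Int.cast_zero, add_zero, ofReal_add, ofReal_intCast]
  ring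

theorem zz_tau (τ : ι → ι → ℂ) (u : (ι → ℝ) × (ι → ℝ)) (a : ι → ℤ) :
    zz τ u.1 u.2 + mv τ (ic a) = zz τ (u + iv a 0).1 (u + iv a 0).2 := by
  funext i
  simp only [Pi.add_apply, zz_apply, iv, Prod.fst_add, Prod.snd_add, ic, Pi.zero_apply,
    Int.cast_zero, add_zero, ofReal_add, ofReal_intCast, mul_add, Finset.sum_add_distrib, mv]
  ring

theorem GG_int (h : Tr τ τ' S A) (b : ι → ℤ) (w : ι → ℂ) :
    GG hτ τ' S A (w + ic b) = GG hτ τ' S A w := by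
  obtain ⟨u, rfl⟩ := (ze hτ).surjective w
  rw [ze_apply, zz_int, GG_zz hτ h, GG_zz hτ h, Kl_S h, ← mul_assoc]
  congr 1
  rw [qf, ← Complex.exp_add]
  congr 1
  rw [← zz_int, iv]
  simp only [Prod.fst_add, rd, Pi.add_apply, Pi.zero_apply, Int.cast_zero, add_zero, ic, mul_add,
    Finset.sum_add_distrib, zero_mul, Finset.sum_const_zero, sub_zero]
  ring

theorem GG_tau (h : Tr τ τ' S A) (a : ι → ℤ) (w : ι → ℂ) :
    GG hτ τ' S A (w + mv τ (ic a)) = cexp (-L (ic a) (τ, w)) * GG hτ τ' S A w := by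
  obtain ⟨u, rfl⟩ := (ze hτ).surjective w
  have e1 : ∀ w : ι → ℂ, rd (u + iv a 0).1 w = rd u.1 w + rd (fun i => (a i : ℝ)) w := by
    intro w
    rw [← rd_add_left]
    rfl
  have e2 : rd u.1 (mv τ (ic a)) + ∑ i, (a i : ℂ) * (u.2 i : ℂ) =
      rd (fun i => (a i : ℝ)) (zz τ u.1 u.2) := by
    have h1 := rd_zz τ u.1 u.2 (fun i => (a i : ℝ)) (fun _ => 0)
    have h2 : zz τ (fun i => (a i : ℝ)) (fun _ => 0) = mv τ (ic a) := by
      funext i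
      simp [zz_apply, mv, ic]
    rw [h2, ER] at h1
    have h3 : ∑ i, (a i : ℂ) * (u.2 i : ℂ) = ((∑ i, u.2 i * (a i : ℝ) : ℝ) : ℂ) := by
      push_cast
      exact Finset.sum_congr rfl fun i _ => mul_comm _ _
    simp only [mul_zero, Finset.sum_const_zero, sub_zero] at h1
    rw [h3]
    linear_combination h1
  have e3 : L (ic a) (τ, zz τ u.1 u.2) = π * I * rd (fun i => (a i : ℝ)) (mv τ (ic a)) +
      2 * π * I * rd (fun i => (a i : ℝ)) (zz τ u.1 u.2) := by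
    rw [TH.L_apply]
    have h1 : rd (fun i => (a i : ℝ)) (mv τ (ic a)) =
        ∑ i, ∑ j, ic a i * ic a j * τ i j := by
      have h2 := rd_mv τ (fun i => (a i : ℝ))
      rw [ic_eq_rc, h2]
      rfl
    rw [h1]
    congr 1
  rw [ze_apply, zz_tau, GG_zz hτ h, GG_zz hτ h, Kl_S h, ← mul_assoc, ← mul_assoc]
  congr 1
  rw [qf, ← Complex.exp_add, ← Complex.exp_add]
  congr 1
  rw [← zz_tau, e1, e3, rd_add_right, rd_add_right]
  simp only [Pi.zero_apply, Int.cast_zero, mul_zero, Finset.sum_const_zero, sub_zero, zero_sub]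
  linear_combination (-(π * I : ℂ)) * e2

/-- MAIN: the transformation of the Riemann theta function -/
theorem transf (hU : UNI ι) (hsym : SYM τ) (hτ : τ ∈ HH ι) (hτ' : τ' ∈ HH ι) (h : Tr τ τ' S A) :
    ∃ c : ℂ, (∀ u : (ι → ℝ) × (ι → ℝ), Kl τ' (S u).1 (S u).2 = c * Kl τ u.1 u.2) ∧
      ∀ (u : (ι → ℝ) × (ι → ℝ)) (v : ι → ℂ), KD τ' (S u).1 (S u).2 (A v) = c * KD τ u.1 u.2 v := by
  obtain ⟨c, hc⟩ := hU τ hτ hsym (GG hτ τ' S A)
    (fun w => (GG_hasFDerivAt hτ hτ' h w).choose_spec.1.differentiableAt)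
    (GG_int hτ h) (GG_tau hτ h)
  refine ⟨c, fun u => ?_, fun u v => ?_⟩
  · have h1 := GG_zz hτ h u
    rw [hc] at h1
    rw [Kl_zz τ, mul_left_comm, h1, ← mul_assoc, ← Complex.exp_add, add_neg_cancel,
      Complex.exp_zero, one_mul]
  · obtain ⟨D, hD, hD'⟩ := GG_hasFDerivAt hτ hτ' h (zz τ u.1 u.2)
    have h2 : HasFDerivAt (GG hτ τ' S A) (c • fderiv ℂ (th τ) (zz τ u.1 u.2)) (zz τ u.1 u.2) := by
      have h3 : GG hτ τ' S A = fun w => c * th τ w := funext hc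
      rw [h3]
      exact (differentiable_th hτ _).hasFDerivAt.const_mul c
    have h4 : D v = c * dth τ (zz τ u.1 u.2) v := by
      rw [hD.unique h2]; rfl
    have h5 := hD' v
    rw [h4] at h5
    have h6 := hc (zz τ u.1 u.2)
    rw [GG] at h6
    have h7 : BB hτ S A (zz τ u.1 u.2) v = rd (S u).1 (A v) - rd u.1 v := by
      rw [BB, ze_symm_zz hτ u]
    have h8 : cexp (π * I * BB hτ S A (zz τ u.1 u.2) (zz τ u.1 u.2)) =
        cexp (π * I * rd (S u).1 (A (zz τ u.1 u.2))) *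
          cexp (-(π * I * rd u.1 (zz τ u.1 u.2))) := by
      rw [BB, ze_symm_zz hτ u, ← Complex.exp_add]
      congr 1
      ring
    have h9 : cexp (π * I * rd u.1 (zz τ u.1 u.2)) * cexp (-(π * I * rd u.1 (zz τ u.1 u.2))) = 1 := by
      rw [← Complex.exp_add, add_neg_cancel, Complex.exp_zero]
    rw [KD_zz hτ' , KD_zz hτ, h.map]
    rw [h7, h8] at h5
    rw [h8] at h6
    set e := cexp (π * I * rd u.1 (zz τ u.1 u.2))
    set e' := cexp (-(π * I * rd u.1 (zz τ u.1 u.2)))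
    set E := cexp (π * I * rd (S u).1 (A (zz τ u.1 u.2)))
    set T := th τ (zz τ u.1 u.2)
    set T' := th τ' (A (zz τ u.1 u.2))
    set d' := dth τ' (A (zz τ u.1 u.2)) (A v)
    set d := dth τ (zz τ u.1 u.2) v
    set r' := rd (S u).1 (A v)
    set r := rd u.1 v
    linear_combination (-e) * h5 - E * (d' + 2 * π * I * r' * T') * h9 +
      (2 * π * I * r * e) * h6

end Pool.Agent.Lib.MPf11a48.SH.TRF
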