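import Pool.Agent.Lib.MP_f11a48_ag.SH.TRF.Sie
import Pool.Agent.Lib.MP_f11a48_ag.SH.TRF.Transf
import Pool.Agent.Lib.MP_f11a48_ag.SH.TH.Uni
import Pool.Agent.Lib.MP_f11a48_ag.SH.TH.Ndg

/-!
# MP_f11a48_ag, project S0, part TRF: the forms of the family under the arithmetic group
-/

set_option autoImplicit false

open Matrix

namespace Pool.Agent.Lib.MPf11a48.SH.TRF

open TH

variable {K : Type} [Field K] [NumberField K] {T : Type} [Fintype T] [DecidableEq T] {n : ℕ}
  (F : Fam K T n)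

/-! ## Integral matrices -/

omit [NumberField K] in
theorem bar_ratCast (bar : K ≃+* K) [CharZero K] (r : ℚ) : bar (r : K) = r := map_ratCast bar r

/-- the map `l -> (a l_1 + c bbar l_2, b l_1 + abar l_2)` -/
noncomputable def TL (a b : K) : (K × K) →ₗ[ℚ] (K × K) where
  toFun l := (a * l.1 + F.c * F.bar b * l.2, b * l.1 + F.bar a * l.2)
  map_add' l m := by
    ext <;> simp <;> ring
  map_smul' r l := by
    ext <;> simp [Algebra.smul_def] <;> ring

theorem TL_apply (a b : K) (l : K × K) :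
    TL F a b l = (a * l.1 + F.c * F.bar b * l.2, b * l.1 + F.bar a * l.2) := rfl

theorem TL_add (a b a' b' : K) : TL F (a + a') (b + b') = TL F a b + TL F a' b' := by
  ext l <;> simp [TL_apply] <;> ring

/-- an entry of the matrix of `TL`, as a linear form in `a` (with `b = 0`) and in `b` -/
noncomputable def en (k l : CI T n ⊕ CI T n) (a b : K) : ℚ :=
  F.b.repr (TL F a b (F.b l)) k

theorem en_smul (k l : CI T n ⊕ CI T n) (r : ℚ) (a b : K) :
    en F k l (r • a) (r • b) = r * en F k l a b := by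
  have h : TL F (r • a) (r • b) (F.b l) = r • TL F a b (F.b l) := by
    ext <;> simp [TL_apply, Algebra.smul_def] <;> ring
  rw [en, h, map_smul, Finsupp.smul_apply, smul_eq_mul, en]

theorem en_add (k l : CI T n ⊕ CI T n) (a b a' b' : K) :
    en F k l (a + a') (b + b') = en F k l a b + en F k l a' b' := by
  rw [en, TL_add, LinearMap.add_apply, map_add, Finsupp.add_apply, en, en]

/-- a linear form on `K` has bounded denominators on the integers -/
theorem int_denom (φ : K → ℚ) (hadd : ∀ x y, φ (x + y) = φ x + φ y)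
    (hsmul : ∀ (r : ℚ) (x : K), φ (r • x) = r * φ x) :
    ∃ k : ℕ, 0 < k ∧ ∀ x : K, IsIntegral ℤ x → ∃ z : ℤ, (k : ℚ) * φ x = z := by
  classical
  let β := NumberField.integralBasis K
  let L : K →ₗ[ℚ] ℚ := ⟨⟨φ, hadd⟩, fun r x => by simpa using hsmul r x⟩
  refine ⟨∏ i, (φ (β i)).den, Finset.prod_pos fun i _ => (φ (β i)).den_pos, fun x hx => ?_⟩
  have h1 : x = ∑ i, β.repr x i • β i := (β.sum_repr x).symm
  have h2 : φ x = ∑ i, β.repr x i * φ (β i) := by
    conv_lhs => rw [h1]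
    have : L (∑ i, β.repr x i • β i) = ∑ i, β.repr x i * L (β i) := by
      rw [map_sum]
      exact Finset.sum_congr rfl fun i _ => by rw [map_smul, smul_eq_mul]
    exact this
  have h3 : ∀ i, ∃ z : ℤ, β.repr x i = z := by
    intro i
    have h4 := NumberField.integralBasis_repr_apply K ⟨x, hx⟩ i
    exact ⟨(NumberField.RingOfIntegers.basis K).repr ⟨x, hx⟩ i, h4.trans (eq_intCast _ _)⟩
  have h5 : ∀ i, ∃ z : ℤ, ((∏ i, (φ (β i)).den : ℕ) : ℚ) * φ (β i) = z := by
    intro i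
    refine ⟨(∏ j ∈ Finset.univ.erase i, ((φ (β j)).den : ℤ)) * (φ (β i)).num, ?_⟩
    have h6 := Finset.mul_prod_erase (Finset.univ) (fun j => (φ (β j)).den) (Finset.mem_univ i)
    rw [← h6]
    push_cast
    have h7 : ((φ (β i)).den : ℚ) * φ (β i) = (φ (β i)).num := Rat.den_mul_eq_num _
    linear_combination (∏ j ∈ Finset.univ.erase i, ((φ (β j)).den : ℚ)) * h7
  choose a ha using h3
  choose b hb using h5
  refine ⟨∑ i, a i * b i, ?_⟩
  rw [h2, Finset.mul_sum]
  push_cast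
  refine Finset.sum_congr rfl fun i _ => ?_
  rw [← hb, ha]
  push_cast
  ring

theorem en_denom : ∃ k : ℕ, 0 < k ∧ ∀ a b : K, IsIntegral ℤ a → IsIntegral ℤ b →
    ∀ i j, ∃ z : ℤ, (k : ℚ) * en F i j a b = z := by
  classical
  have h1 : ∀ ij : (CI T n ⊕ CI T n) × (CI T n ⊕ CI T n), ∃ k : ℕ, 0 < k ∧
      ∀ a b : K, IsIntegral ℤ a → IsIntegral ℤ b → ∃ z : ℤ, (k : ℚ) * en F ij.1 ij.2 a b = z := by
    rintro ⟨i, j⟩
    obtain ⟨k₁, hk₁, h1⟩ := int_denom (fun a => en F i j a 0)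
      (fun x y => by simpa using en_add F i j x 0 y 0)
      (fun r x => by simpa using en_smul F i j r x 0)
    obtain ⟨k₂, hk₂, h2⟩ := int_denom (fun b => en F i j 0 b)
      (fun x y => by simpa using en_add F i j 0 x 0 y)
      (fun r x => by simpa using en_smul F i j r 0 x)
    refine ⟨k₁ * k₂, Nat.mul_pos hk₁ hk₂, fun a b ha hb => ?_⟩
    obtain ⟨z₁, h3⟩ := h1 a ha
    obtain ⟨z₂, h4⟩ := h2 b hb
    refine ⟨k₂ * z₁ + k₁ * z₂, ?_⟩
    have h5 : en F i j a b = en F i j a 0 + en F i j 0 b := by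
      simpa using en_add F i j a 0 0 b
    show ((k₁ * k₂ : ℕ) : ℚ) * en F i j a b = _
    rw [h5]
    push_cast
    rw [← h3, ← h4]
    ring
  choose k hk h using h1
  refine ⟨∏ ij, k ij, Finset.prod_pos fun ij _ => hk ij, fun a b ha hb i j => ?_⟩
  obtain ⟨z, hz⟩ := h (i, j) a b ha hb
  refine ⟨(∏ ij ∈ Finset.univ.erase (i, j), (k ij : ℤ)) * z, ?_⟩
  have h6 := Finset.mul_prod_erase (Finset.univ) k (Finset.mem_univ (i, j))
  rw [← h6]
  push_cast
  rw [← hz]
  push_cast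
  ring

/-! ## The matrix of an element of the group -/

variable {F}

/-- the rational matrix of `g` -/
noncomputable def gm {M : ℕ} (g : F.Gam M) (k l : CI T n ⊕ CI T n) : ℚ := en F k l g.a g.b

theorem TL_mul {M : ℕ} (g : F.Gam M) (l : K × K) : TL F g.a g.b l = g.mul l := rfl

theorem gm_repr {M : ℕ} (g : F.Gam M) (u : K × K) (k : CI T n ⊕ CI T n) :
    F.b.repr (g.mul u) k = ∑ l, gm g k l * F.b.repr u l := by
  have h1 : g.mul u = ∑ l, F.b.repr u l • TL F g.a g.b (F.b l) := by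
    rw [← TL_mul]
    conv_lhs => rw [← F.b.sum_repr u]
    rw [map_sum]
    exact Finset.sum_congr rfl fun l _ => by rw [map_smul]
  rw [h1, map_sum, Finsupp.finsetSum_apply]
  refine Finset.sum_congr rfl fun l _ => ?_
  rw [map_smul, Finsupp.smul_apply, smul_eq_mul, mul_comm]
  rfl

theorem gm_sum {M : ℕ} (g : F.Gam M) (l : CI T n ⊕ CI T n) :
    ∑ k, gm g k l • F.b k = g.mul (F.b l) := by
  rw [← TL_mul]
  exact F.b.sum_repr _

/-- the action on complex vectors -/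
noncomputable def gC {M : ℕ} (g : F.Gam M) (x : CI T n ⊕ CI T n → ℂ) : CI T n ⊕ CI T n → ℂ :=
  fun k => ∑ l, ((gm g k l : ℚ) : ℂ) * x l

theorem emb_add (l m : K × K) (i : CI T n) : F.emb (l + m) i = F.emb l i + F.emb m i := by
  simp only [Fam.emb]
  split_ifs <;> simp

theorem emb_smul (r : ℚ) (l : K × K) (i : CI T n) : F.emb (r • l) i = (r : ℂ) * F.emb l i := by
  simp only [Fam.emb]
  split_ifs <;> simp [Algebra.smul_def]

theorem emb_sum {ι : Type} (s : Finset ι) (r : ι → ℚ) (l : ι → K × K) (i : CI T n) :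
    F.emb (∑ k ∈ s, r k • l k) i = ∑ k ∈ s, (r k : ℂ) * F.emb (l k) i := by
  classical
  induction s using Finset.induction_on with
  | empty => simp [Fam.emb]
  | insert a s ha ih => rw [Finset.sum_insert ha, Finset.sum_insert ha, emb_add, emb_smul, ih]

theorem emb_mul {M : ℕ} (g : F.Gam M) (l : K × K) (v : T ⊕ Fin n) :
    F.emb (g.mul l) (v, 0) = F.sg v g.a * F.emb l (v, 0) +
      F.sg v F.c * (starRingEnd ℂ) (F.sg v g.b) * F.emb l (v, 1) ∧
    F.emb (g.mul l) (v, 1) = F.sg v g.b * F.emb l (v, 0) +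
      (starRingEnd ℂ) (F.sg v g.a) * F.emb l (v, 1) := by
  constructor <;> simp [Fam.emb, Fam.Gam.mul, F.conj]

theorem sC_gC {M : ℕ} (g : F.Gam M) (v : T ⊕ Fin n) (x : CI T n ⊕ CI T n → ℂ) :
    sC F v 0 (gC g x) = F.sg v g.a * sC F v 0 x +
      F.sg v F.c * (starRingEnd ℂ) (F.sg v g.b) * sC F v 1 x ∧
    sC F v 1 (gC g x) = F.sg v g.b * sC F v 0 x + (starRingEnd ℂ) (F.sg v g.a) * sC F v 1 x := by
  have h : ∀ j, sC F v j (gC g x) = ∑ l, x l * F.emb (g.mul (F.b l)) (v, j) := by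
    intro j
    have h1 : ∀ l, F.emb (g.mul (F.b l)) (v, j) = ∑ k, (gm g k l : ℂ) * bs F v j k := by
      intro l
      rw [← gm_sum, emb_sum]
      rfl
    simp only [h1, sC, gC, Finset.sum_mul, Finset.mul_sum]
    rw [Finset.sum_comm]
    exact Finset.sum_congr rfl fun l _ => Finset.sum_congr rfl fun k _ => by ring
  constructor
  · rw [h, sC, sC, Finset.mul_sum, Finset.mul_sum, ← Finset.sum_add_distrib]
    refine Finset.sum_congr rfl fun l _ => ?_
    rw [(emb_mul g (F.b l) v).1, bs, bs]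
    ring
  · rw [h, sC, sC, Finset.mul_sum, Finset.mul_sum, ← Finset.sum_add_distrib]
    refine Finset.sum_congr rfl fun l _ => ?_
    rw [(emb_mul g (F.b l) v).2, bs, bs]
    ring

theorem sB_eq (v : T ⊕ Fin n) (j : Fin 2) (x : CI T n ⊕ CI T n → ℂ) :
    sB F v j x = (starRingEnd ℂ) (sC F v j (star x)) := by
  rw [sC_conj, Complex.conj_conj]

theorem gC_star {M : ℕ} (g : F.Gam M) (x : CI T n ⊕ CI T n → ℂ) :
    gC g (star x) = star (gC g x) := by
  funext k
  simp [gC, Pi.star_apply]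

theorem sB_gC {M : ℕ} (g : F.Gam M) (v : T ⊕ Fin n) (x : CI T n ⊕ CI T n → ℂ) :
    sB F v 0 (gC g x) = (starRingEnd ℂ) (F.sg v g.a) * sB F v 0 x +
      F.sg v F.c * F.sg v g.b * sB F v 1 x ∧
    sB F v 1 (gC g x) = (starRingEnd ℂ) (F.sg v g.b) * sB F v 0 x + F.sg v g.a * sB F v 1 x := by
  simp only [sB_eq, ← gC_star]
  rw [(sC_gC g v (star x)).1, (sC_gC g v (star x)).2]
  constructor <;> simp [c_conj]

theorem g_eq {M : ℕ} (g : F.Gam M) (v : T ⊕ Fin n) :
    F.sg v g.a * (starRingEnd ℂ) (F.sg v g.a) -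
      F.sg v F.c * F.sg v g.b * (starRingEnd ℂ) (F.sg v g.b) = 1 := by
  have h := congrArg (F.sg v) g.eq
  simpa [F.conj] using h

theorem EX_gC {M : ℕ} (g : F.Gam M) (x y : CI T n ⊕ CI T n → ℂ) :
    EX F (gC g x) (gC g y) = EX F x y := by
  rw [EX_eq, EX_eq]
  refine Finset.sum_congr rfl fun v _ => ?_
  rw [(sC_gC g v x).1, (sC_gC g v x).2, (sC_gC g v y).1, (sC_gC g v y).2, (sB_gC g v x).1,
    (sB_gC g v x).2, (sB_gC g v y).1, (sB_gC g v y).2]
  linear_combination (F.sg v F.ξ * (sC F v 0 x * sB F v 0 y - F.sg v F.c * sC F v 1 x * sB F v 1 y -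
      sB F v 0 x * sC F v 0 y + F.sg v F.c * sB F v 1 x * sC F v 1 y)) * g_eq g v

/-- the denominator of the action -/
noncomputable def dn {M : ℕ} (g : F.Gam M) (z : Fin n → ℂ) (d : Fin n) : ℂ :=
  F.sg (Sum.inr d) g.b * z d + (starRingEnd ℂ) (F.sg (Sum.inr d) g.a)

theorem dn_ne {M : ℕ} (g : F.Gam M) {z : Fin n → ℂ} (hz : z ∈ F.X) (d : Fin n) :
    dn g z d ≠ 0 := by
  intro h0
  have h1 := g_eq g (Sum.inr d)
  rw [c_re F, Complex.mul_conj, mul_assoc, Complex.mul_conj] at h1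
  have h2 : Complex.normSq (F.sg (Sum.inr d) g.a) -
      (F.sg (Sum.inr d) F.c).re * Complex.normSq (F.sg (Sum.inr d) g.b) = 1 := by
    exact_mod_cast h1
  have h3 : (starRingEnd ℂ) (F.sg (Sum.inr d) g.a) = -(F.sg (Sum.inr d) g.b * z d) := by
    rw [dn] at h0
    linear_combination h0
  have h4 : Complex.normSq (F.sg (Sum.inr d) g.a) =
      Complex.normSq (F.sg (Sum.inr d) g.b) * ‖z d‖ ^ 2 := by
    rw [← Complex.normSq_conj, h3, Complex.normSq_neg, Complex.normSq_mul,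
      Complex.normSq_eq_norm_sq (z d)]
  have h5 : ‖z d‖ ^ 2 < (F.sg (Sum.inr d) F.c).re := hz d
  have h6 := Complex.normSq_nonneg (F.sg (Sum.inr d) g.b)
  rw [h4] at h2
  nlinarith

theorem act_eq {M : ℕ} (g : F.Gam M) {z : Fin n → ℂ} (hz : z ∈ F.X) (d : Fin n) :
    g.act z d * dn g z d = F.sg (Sum.inr d) g.a * z d +
      F.sg (Sum.inr d) F.c * (starRingEnd ℂ) (F.sg (Sum.inr d) g.b) := by
  have h := dn_ne g hz d
  rw [Fam.Gam.act]
  exact div_mul_cancel₀ _ h

/-- the linear map `A` -/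
noncomputable def AM {M : ℕ} (g : F.Gam M) (z : Fin n → ℂ) : (CI T n → ℂ) →ₗ[ℂ] (CI T n → ℂ) where
  toFun w := fun i =>
    match i with
    | (Sum.inl t, j) => if j = 0 then F.sg (Sum.inl t) g.a * w (Sum.inl t, 0) +
        F.sg (Sum.inl t) F.c * (starRingEnd ℂ) (F.sg (Sum.inl t) g.b) * w (Sum.inl t, 1) else
        F.sg (Sum.inl t) g.b * w (Sum.inl t, 0) +
          (starRingEnd ℂ) (F.sg (Sum.inl t) g.a) * w (Sum.inl t, 1)
    | (Sum.inr d, j) => w (Sum.inr d, j) / dn g z d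
  map_add' w w' := by
    funext i
    rcases i with ⟨t | d, j⟩
    · simp only [Pi.add_apply]
      split_ifs <;> ring
    · simp only [Pi.add_apply]
      ring
  map_smul' c w := by
    funext i
    rcases i with ⟨t | d, j⟩
    · simp only [Pi.smul_apply, smul_eq_mul, RingHom.id_apply]
      split_ifs <;> ring
    · simp only [Pi.smul_apply, smul_eq_mul, RingHom.id_apply]
      ring

theorem UC_gC {M : ℕ} (g : F.Gam M) {z : Fin n → ℂ} (hz : z ∈ F.X)
    (x : CI T n ⊕ CI T n → ℂ) : UC F (g.act z) (gC g x) = AM g z (UC F z x) := by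
  funext i
  rcases i with ⟨t | d, j⟩
  · fin_cases j
    · show UC F (g.act z) (gC g x) (Sum.inl t, 0) = _
      rw [UC_t, (sC_gC g (Sum.inl t) x).1]
      simp only [AM, LinearMap.coe_mk, AddHom.coe_mk]
      rw [UC_t, UC_t]
      simp
    · show UC F (g.act z) (gC g x) (Sum.inl t, 1) = _
      rw [UC_t, (sC_gC g (Sum.inl t) x).2]
      simp only [AM, LinearMap.coe_mk, AddHom.coe_mk]
      rw [UC_t, UC_t]
      simp
  · have h1 := act_eq g hz d
    have h2 := dn_ne g hz d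
    have h3 := g_eq g (Sum.inr d)
    have h4 : g.act z d = (F.sg (Sum.inr d) g.a * z d +
      F.sg (Sum.inr d) F.c * (starRingEnd ℂ) (F.sg (Sum.inr d) g.b)) / dn g z d := by
      rw [← h1, mul_div_cancel_right₀ _ h2]
    fin_cases j
    · show UC F (g.act z) (gC g x) (Sum.inr d, 0) = UC F z x (Sum.inr d, 0) / dn g z d
      rw [UC_d0, UC_d0, (sC_gC g (Sum.inr d) x).1, (sC_gC g (Sum.inr d) x).2, h4]
      field_simp
      rw [dn]
      linear_combination (sC F (Sum.inr d) 0 x - z d * sC F (Sum.inr d) 1 x) * h3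
    · show UC F (g.act z) (gC g x) (Sum.inr d, 1) = UC F z x (Sum.inr d, 1) / dn g z d
      rw [UC_d1, UC_d1, (sB_gC g (Sum.inr d) x).1, (sB_gC g (Sum.inr d) x).2, h4]
      field_simp
      rw [dn]
      linear_combination (F.sg (Sum.inr d) F.c * sB F (Sum.inr d) 1 x -
        z d * sB F (Sum.inr d) 0 x) * h3

/-! ## The real action -/

/-- the real coordinates as a vector -/
def xr (u : (CI T n → ℝ) × (CI T n → ℝ)) : CI T n ⊕ CI T n → ℝ := Sum.elim u.2 u.1

/-- the complex vector of the real coordinates -/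
noncomputable def xc (u : (CI T n → ℝ) × (CI T n → ℝ)) : CI T n ⊕ CI T n → ℂ :=
  Sum.elim (rc u.2) (rc u.1)

omit [Fintype T] [DecidableEq T] in
theorem xc_apply (u : (CI T n → ℝ) × (CI T n → ℝ)) (k : CI T n ⊕ CI T n) :
    xc u k = (xr u k : ℂ) := by
  rcases k with k | k <;> rfl

/-- the action on the real coordinates -/
noncomputable def SR {M : ℕ} (g : F.Gam M) :
    ((CI T n → ℝ) × (CI T n → ℝ)) →ₗ[ℝ] ((CI T n → ℝ) × (CI T n → ℝ)) where
  toFun u := (fun i => ∑ l, (gm g (Sum.inr i) l : ℝ) * xr u l,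
    fun i => ∑ l, (gm g (Sum.inl i) l : ℝ) * xr u l)
  map_add' u v := by
    have h : ∀ k l, (gm g k l : ℝ) * xr (u + v) l =
        (gm g k l : ℝ) * xr u l + (gm g k l : ℝ) * xr v l := by
      intro k l
      rcases l with l | l <;> simp [xr] <;> ring
    ext i <;> simp [h, Finset.sum_add_distrib]
  map_smul' r u := by
    have h : ∀ k l, (gm g k l : ℝ) * xr (r • u) l = r * ((gm g k l : ℝ) * xr u l) := by
      intro k l
      rcases l with l | l <;> simp [xr] <;> ring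
    refine Prod.ext ?_ ?_ <;>
    · funext i
      simp only [h, RingHom.id_apply, Prod.smul_fst, Prod.smul_snd, Pi.smul_apply, smul_eq_mul,
        Finset.mul_sum]

theorem xr_SR {M : ℕ} (g : F.Gam M) (u : (CI T n → ℝ) × (CI T n → ℝ)) (k : CI T n ⊕ CI T n) :
    xr (SR g u) k = ∑ l, (gm g k l : ℝ) * xr u l := by
  rcases k with k | k <;> rfl

theorem gC_xc {M : ℕ} (g : F.Gam M) (u : (CI T n → ℝ) × (CI T n → ℝ)) :
    gC g (xc u) = xc (SR g u) := by
  funext k
  rw [xc_apply, xr_SR, gC]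
  push_cast
  exact Finset.sum_congr rfl fun l _ => by rw [xc_apply]

theorem zz_tau_eq {z : Fin n → ℂ} (hz : z ∈ F.X) (u : (CI T n → ℝ) × (CI T n → ℝ)) :
    zz (F.tau z) u.1 u.2 = (F.Ome z)⁻¹ *ᵥ UC F z (xc u) := by
  obtain ⟨h1, h2, -⟩ := specSIE K T n F z hz
  have h3 : ∀ i j, F.tau z j i = F.tau z i j := fun i j => by
    rw [← h2, Matrix.transpose_apply]
    rw [h2]
  rw [xc, UC_elim, Matrix.mulVec_add, Matrix.mulVec_mulVec, Matrix.mulVec_mulVec,
    Matrix.nonsing_inv_mul _ h1, Matrix.one_mulVec]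
  funext i
  refine (zz_apply (F.tau z) u.1 u.2 i).trans ?_
  rw [Pi.add_apply, add_comm]
  congr 1
  rw [Matrix.mulVec, dotProduct]
  refine Finset.sum_congr rfl fun j _ => ?_
  rw [h3 i j]
  show _ = F.tau z i j * _
  rw [rc]
  ring

/-- `A` in the coordinates of the theta function -/
noncomputable def AT {M : ℕ} (g : F.Gam M) (z : Fin n → ℂ) : (CI T n → ℂ) →ₗ[ℂ] (CI T n → ℂ) :=
  (Matrix.mulVecLin (F.Ome (g.act z))⁻¹).comp ((AM g z).comp (Matrix.mulVecLin (F.Ome z)))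

theorem AT_apply {M : ℕ} (g : F.Gam M) {z : Fin n → ℂ} (hz : z ∈ F.X) (w : CI T n → ℂ) :
    AT g z ((F.Ome z)⁻¹ *ᵥ w) = (F.Ome (g.act z))⁻¹ *ᵥ AM g z w := by
  obtain ⟨h1, -, -⟩ := specSIE K T n F z hz
  simp only [AT, LinearMap.comp_apply, Matrix.mulVecLin_apply]
  rw [Matrix.mulVec_mulVec, Matrix.mul_nonsing_inv _ h1, Matrix.one_mulVec]

theorem ER_eq (u u' : (CI T n → ℝ) × (CI T n → ℝ)) : (ER u u' : ℂ) = EX F (xc u) (xc u') := by
  rw [xc, xc, EX_elim, EC, ER]
  push_cast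
  rfl

/-! ## Congruences -/

/-- `g = 1 + 2 m ^ 2 R` with `R` integral -/
def Cong {M : ℕ} (m : ℕ) (g : F.Gam M) : Prop :=
  ∀ k l, ∃ r : ℤ, gm g k l = (if k = l then 1 else 0) + 2 * (m : ℚ) ^ 2 * r

theorem exists_cong (F : Fam K T n) (m : ℕ) (hm : 0 < m) :
    ∃ M : ℕ, 0 < M ∧ ∀ g : F.Gam M, Cong m g := by
  obtain ⟨k₀, hk₀, h⟩ := en_denom F
  refine ⟨2 * m ^ 2 * k₀, by positivity, fun g k l => ?_⟩
  obtain ⟨x, hx, hax⟩ := g.a_mod
  obtain ⟨y, hy, hby⟩ := g.b_mod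
  obtain ⟨r, hr⟩ := h x y hx hy k l
  refine ⟨r, ?_⟩
  have h1 : en F k l 1 0 = if k = l then 1 else 0 := by
    have : TL F 1 0 (F.b l) = F.b l := by
      rw [TL_apply]
      simp
    rw [en, this, Module.Basis.repr_self, Finsupp.single_apply]
    by_cases hkl : k = l
    · simp [hkl]
    · rw [if_neg hkl, if_neg fun h' => hkl h'.symm]
  have h2 : gm g k l = en F k l 1 0 + (2 * (m : ℚ) ^ 2 * k₀) * en F k l x y := by
    rw [← en_smul, ← en_add, gm, hax, hby]
    congr 1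
    · simp [Algebra.smul_def]
    · simp [Algebra.smul_def]
  rw [h2, h1, ← hr]
  ring

section

variable {M m : ℕ} {g : F.Gam M} (hg : Cong m g)

include hg in
theorem cong_R : ∃ r : CI T n ⊕ CI T n → CI T n ⊕ CI T n → ℤ,
    ∀ k l, gm g k l = (if k = l then 1 else 0) + 2 * (m : ℚ) ^ 2 * r k l := by
  choose r hr using hg
  exact ⟨r, hr⟩

include hg in
/-- the action on vectors `x` with `m x` integral -/
theorem SR_int (u : (CI T n → ℝ) × (CI T n → ℝ)) (y : CI T n ⊕ CI T n → ℤ)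
    (hy : ∀ k, (m : ℝ) * xr u k = y k) :
    ∃ a b : CI T n → ℤ, SR g u = u + iv (fun i => 2 * (m : ℤ) * a i) (fun i => 2 * (m : ℤ) * b i) := by
  obtain ⟨r, hr⟩ := cong_R hg
  have h1 : ∀ k, xr (SR g u) k = xr u k + 2 * (m : ℝ) * ((∑ l, r k l * y l : ℤ) : ℝ) := by
    intro k
    rw [xr_SR]
    have h2 : ∀ l, (gm g k l : ℝ) * xr u l =
        (if k = l then xr u l else 0) + 2 * (m : ℝ) * ((r k l : ℝ) * (y l : ℝ)) := by
      intro l
      rw [hr, ← hy]
      push_cast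
      split_ifs <;> ring
    rw [Finset.sum_congr rfl fun l (_ : l ∈ Finset.univ) => h2 l, Finset.sum_add_distrib,
      Finset.sum_ite_eq, if_pos (Finset.mem_univ k), ← Finset.mul_sum]
    push_cast
    rfl
  refine ⟨fun i => ∑ l, r (Sum.inr i) l * y l, fun i => ∑ l, r (Sum.inl i) l * y l, ?_⟩
  refine Prod.ext ?_ ?_
  · funext i
    have := h1 (Sum.inr i)
    simpa [xr, iv] using this
  · funext i
    have := h1 (Sum.inl i)
    simpa [xr, iv] using this

end

/-- the data for the transformation theorem -/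
theorem tr {M m : ℕ} {g : F.Gam M} (hg : Cong m g) {z : Fin n → ℂ} (hz : z ∈ F.X)
    (hz' : g.act z ∈ F.X) : Tr (F.tau z) (F.tau (g.act z)) (SR g) (AT g z) where
  map u := by
    rw [zz_tau_eq hz', zz_tau_eq hz, AT_apply g hz, ← UC_gC g hz, gC_xc]
  sym u u' := by
    have h : (ER (SR g u) (SR g u') : ℂ) = (ER u u' : ℂ) := by
      rw [ER_eq (F := F), ER_eq (F := F), ← gC_xc, ← gC_xc, EX_gC]
    exact_mod_cast h
  int a b := by
    obtain ⟨α, β, h⟩ := SR_int hg (iv a b) (fun k => m * Sum.elim b a k) (by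
      intro k
      rcases k with k | k <;> simp [xr, iv])
    refine ⟨fun i => a i + 2 * m * α i, fun i => b i + 2 * m * β i, ?_, ?_⟩
    · have h1 : ((fun i => (a i : ℝ), fun i => (b i : ℝ)) : (CI T n → ℝ) × (CI T n → ℝ)) =
          iv a b := rfl
      rw [h1, h]
      refine Prod.ext ?_ ?_
      · funext i; simp [iv]
      · funext i; simp [iv]
    · refine ⟨∑ i, ((m : ℤ) * (a i * β i) + (m : ℤ) * (α i * b i) +
        2 * (m : ℤ) ^ 2 * (α i * β i)), ?_⟩
      rw [← Finset.sum_sub_distrib, ← Finset.sum_add_distrib]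
      refine Finset.sum_congr rfl fun i _ => ?_
      ring

omit [DecidableEq T] in
/-- the factor of the quasi-periods is trivial -/
theorem qf_one {m : ℕ} (u : (CI T n → ℝ) × (CI T n → ℝ)) (y : CI T n ⊕ CI T n → ℤ)
    (hy : ∀ k, (m : ℝ) * xr u k = y k) (a b : CI T n → ℤ) :
    qf u.1 u.2 (fun i => 2 * (m : ℤ) * a i) (fun i => 2 * (m : ℤ) * b i) = 1 := by
  have hp : ∀ i, (m : ℂ) * (u.1 i : ℂ) = (y (Sum.inr i) : ℂ) := by
    intro i
    have := hy (Sum.inr i)
    simp only [xr, Sum.elim_inr] at this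
    exact_mod_cast this
  have hq : ∀ i, (m : ℂ) * (u.2 i : ℂ) = (y (Sum.inl i) : ℂ) := by
    intro i
    have := hy (Sum.inl i)
    simp only [xr, Sum.elim_inl] at this
    exact_mod_cast this
  rw [qf, Complex.exp_eq_one_iff]
  refine ⟨∑ i, (y (Sum.inr i) * b i - a i * y (Sum.inl i) - 2 * (m : ℤ) ^ 2 * (a i * b i)), ?_⟩
  push_cast
  rw [← Finset.sum_sub_distrib, ← Finset.sum_sub_distrib, Finset.mul_sum, Finset.sum_mul]
  refine Finset.sum_congr rfl fun i _ => ?_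
  rw [← hp, ← hq]
  ring

end Pool.Agent.Lib.MPf11a48.SH.TRF
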